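import Pool.Agent.H95.Perf.Estimates

/-!
# Poincaré inequality on rectangles for Lipschitz functions
-/

open MeasureTheory Set Metric Filter Topology
open scoped RealInnerProductSpace Gradient

namespace Pool.Agent.H95.Perf

/-- Cauchy-Schwarz on a set of finite measure. -/
theorem sq_integral_le {α : Type*} [MeasurableSpace α] {μ : Measure α} [IsFiniteMeasure μ]
    {g : α → ℝ} (hg : Integrable g μ) (hg2 : Integrable (fun x => g x ^ 2) μ) :
    (∫ x, g x ∂μ) ^ 2 ≤ μ.real univ * ∫ x, g x ^ 2 ∂μ := by
  by_cases h0 : μ.real univ = 0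
  · have : μ = 0 := by
      rw [measureReal_def, ENNReal.toReal_eq_zero_iff] at h0
      rcases h0 with h | h
      · exact Measure.measure_univ_eq_zero.1 h
      · exact absurd h (measure_ne_top μ univ)
    subst this
    simp
  have hpos : 0 < μ.real univ := lt_of_le_of_ne measureReal_nonneg (Ne.symm h0)
  set m := (∫ x, g x ∂μ) / μ.real univ with hm
  have h1 : 0 ≤ ∫ x, (g x - m) ^ 2 ∂μ := integral_nonneg fun x => sq_nonneg _
  have h2 : ∫ x, (g x - m) ^ 2 ∂μ = (∫ x, g x ^ 2 ∂μ) - 2 * m * (∫ x, g x ∂μ) +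
      m ^ 2 * μ.real univ := by
    have e : ∀ x, (g x - m) ^ 2 = (g x ^ 2 - 2 * m * g x) + m ^ 2 := fun x => by ring
    simp_rw [e]
    have hi : Integrable (fun x => g x ^ 2 - 2 * m * g x) μ := hg2.sub (hg.const_mul _)
    rw [integral_add hi (integrable_const _), integral_sub hg2
      (hg.const_mul _), integral_const_mul, integral_const, smul_eq_mul]
    ring
  rw [h2] at h1
  have h3 : m * μ.real univ = ∫ x, g x ∂μ := by rw [hm]; field_simp
  have h4 : (∫ x, g x ∂μ) ^ 2 = μ.real univ * (2 * m * (∫ x, g x ∂μ) - m ^ 2 * μ.real univ) := by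
    rw [← h3]; ring
  rw [h4]
  gcongr
  linarith

/-- One-dimensional estimate. -/
theorem oned {u : ℝ → ℝ} (hu : IsLip u) {I : Set ℝ} (hI : OrdConnected I)
    {α L : ℝ} (hIL : I ⊆ Icc α (α + L)) {t t' : ℝ} (ht : t ∈ I) (ht' : t' ∈ I) :
    (u t - u t') ^ 2 ≤ L * ∫ s in I, (deriv u s) ^ 2 := by
  obtain ⟨C, hC⟩ := hu
  have hC' : ∀ s, |deriv u s| ≤ C := fun s => by
    have := norm_deriv_le_of_lipschitz (x₀ := s) hC
    simpa using this
  have hmeas : Measurable (deriv u) := measurable_deriv u
  have hIfin : volume I < ⊤ := (measure_mono hIL).trans_lt measure_Icc_lt_top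
  have hfin : ∀ s : Set ℝ, volume s < ⊤ → IntegrableOn (deriv u) s := fun s hs =>
    Measure.integrableOn_of_bounded (M := C) hs.ne hmeas.aestronglyMeasurable
      (Eventually.of_forall fun x => hC' x)
  have hfin2 : ∀ s : Set ℝ, volume s < ⊤ → IntegrableOn (fun x => deriv u x ^ 2) s :=
    fun s hs => Measure.integrableOn_of_bounded (M := (C : ℝ) ^ 2) hs.ne
      (hmeas.pow_const 2).aestronglyMeasurable
      (Eventually.of_forall fun x => by
        rw [norm_pow]
        exact pow_le_pow_left₀ (norm_nonneg _) (hC' x) 2)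
  have hL0 : 0 ≤ L := by
    have := hIL ht
    linarith [this.1, this.2]
  wlog hle : t' ≤ t generalizing t t'
  · have := this ht' ht (le_of_not_ge hle)
    rwa [← neg_sub, neg_sq] at this
  have hftc := (hC.lipschitzOnWith (s := uIcc t' t)).absolutelyContinuousOnInterval.integral_deriv_eq_sub
  rw [← hftc, intervalIntegral.integral_of_le hle]
  have hsub : Ioc t' t ⊆ I := fun s hs => hI.out ht' ht ⟨hs.1.le, hs.2⟩
  have hcs := sq_integral_le (μ := volume.restrict (Ioc t' t)) (g := deriv u)
    (hfin _ measure_Ioc_lt_top) (hfin2 _ measure_Ioc_lt_top)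
  refine hcs.trans ?_
  have h1 : (volume.restrict (Ioc t' t)).real univ ≤ L := by
    rw [measureReal_restrict_apply_univ, measureReal_def, Real.volume_Ioc,
      ENNReal.toReal_ofReal (by linarith)]
    have h1 := hIL ht
    have h2 := hIL ht'
    linarith [h1.2, h2.1]
  have h2 : ∫ s in Ioc t' t, deriv u s ^ 2 ≤ ∫ s in I, deriv u s ^ 2 :=
    setIntegral_mono_set (hfin2 I hIfin) (Eventually.of_forall fun s => sq_nonneg _)
      (Eventually.of_forall hsub)
  have h3 : 0 ≤ ∫ s in Ioc t' t, deriv u s ^ 2 := integral_nonneg fun s => sq_nonneg _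
  exact mul_le_mul h1 h2 h3 hL0

/-! ### Fubini on rectangles -/

/-- rectangle -/
def rect (I J : Set ℝ) : Set ℂ := {z | z.re ∈ I ∧ z.im ∈ J}

theorem rect_preimage (I J : Set ℝ) :
    Complex.measurableEquivRealProd.symm ⁻¹' (rect I J) = I ×ˢ J := by
  ext ⟨a, b⟩
  rfl

theorem measurableSet_rect {I J : Set ℝ} (hI : MeasurableSet I) (hJ : MeasurableSet J) :
    MeasurableSet (rect I J) :=
  (Complex.measurable_re hI).inter (Complex.measurable_im hJ)

theorem setIntegral_rect_eq (I J : Set ℝ) (g : ℂ → ℝ) :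
    ∫ z in rect I J, g z = ∫ p in I ×ˢ J, g ⟨p.1, p.2⟩ := by
  have h := (Complex.volume_preserving_equiv_real_prod.symm).setIntegral_preimage_emb
    Complex.measurableEquivRealProd.symm.measurableEmbedding g (rect I J)
  rw [rect_preimage] at h
  rw [← h]
  rfl

theorem integrableOn_rect_iff (I J : Set ℝ) (g : ℂ → ℝ) :
    IntegrableOn g (rect I J) ↔ IntegrableOn (fun p : ℝ × ℝ => g ⟨p.1, p.2⟩) (I ×ˢ J) := by
  have h := (Complex.volume_preserving_equiv_real_prod.symm).integrableOn_comp_preimage
    Complex.measurableEquivRealProd.symm.measurableEmbedding (f := g) (s := rect I J)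
  rw [rect_preimage] at h
  rw [← h]
  rfl

theorem setIntegral_rect {I J : Set ℝ} {g : ℂ → ℝ} (hg : IntegrableOn g (rect I J)) :
    ∫ z in rect I J, g z = ∫ a in I, ∫ b in J, g ⟨a, b⟩ := by
  rw [setIntegral_rect_eq, Measure.volume_eq_prod, ← Measure.prod_restrict]
  rw [integrableOn_rect_iff, IntegrableOn, Measure.volume_eq_prod, ← Measure.prod_restrict] at hg
  exact integral_prod _ hg

theorem setIntegral_rect' {I J : Set ℝ} {g : ℂ → ℝ} (hg : IntegrableOn g (rect I J)) :
    ∫ z in rect I J, g z = ∫ b in J, ∫ a in I, g ⟨a, b⟩ := by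
  rw [setIntegral_rect_eq, Measure.volume_eq_prod, ← Measure.prod_restrict]
  rw [integrableOn_rect_iff, IntegrableOn, Measure.volume_eq_prod, ← Measure.prod_restrict] at hg
  exact integral_prod_symm _ hg

theorem volume_rect (I J : Set ℝ) : volume (rect I J) = volume I * volume J := by
  have h := (Complex.volume_preserving_equiv_real_prod.symm).measure_preimage_equiv (rect I J)
  rw [rect_preimage] at h
  rw [← h, Measure.volume_eq_prod, Measure.prod_prod]

theorem volume_real_rect (I J : Set ℝ) : volume.real (rect I J) = volume.real I * volume.real J := by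
  rw [measureReal_def, volume_rect, ENNReal.toReal_mul]; rfl

section

variable {I J : Set ℝ} {α β L : ℝ} {f : ℂ → ℝ}

theorem isLip_hor (hf : IsLip f) (s : ℝ) : IsLip (fun t : ℝ => f ⟨t, s⟩) := by
  obtain ⟨K, hK0, hK⟩ := hf.exists_abs_le
  refine IsLip.of_abs_le (K := K) fun t t' => ?_
  refine (hK _ _).trans ?_
  gcongr
  rw [Complex.dist_eq, Real.dist_eq]
  have : (⟨t, s⟩ : ℂ) - ⟨t', s⟩ = ((t - t' : ℝ) : ℂ) := by
    apply Complex.ext <;> simp
  rw [this, Complex.norm_real, Real.norm_eq_abs]

theorem isLip_ver (hf : IsLip f) (t : ℝ) : IsLip (fun s : ℝ => f ⟨t, s⟩) := by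
  obtain ⟨K, hK0, hK⟩ := hf.exists_abs_le
  refine IsLip.of_abs_le (K := K) fun s s' => ?_
  refine (hK _ _).trans ?_
  gcongr
  rw [Complex.dist_eq, Real.dist_eq]
  have : (⟨t, s⟩ : ℂ) - ⟨t, s'⟩ = ((s - s' : ℝ) : ℂ) * Complex.I := by
    apply Complex.ext <;> simp
  rw [this, norm_mul, Complex.norm_I, mul_one, Complex.norm_real, Real.norm_eq_abs]

theorem deriv_hor (t s : ℝ) : deriv (fun t : ℝ => f ⟨t, s⟩) t = lineDeriv ℝ f ⟨t, s⟩ 1 := by
  rw [lineDeriv]
  have : (fun t' : ℝ => f ((⟨t, s⟩ : ℂ) + t' • 1)) = fun t' : ℝ => (fun t => f ⟨t, s⟩) (t + t') := by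
    funext t'
    simp only
    congr 1
    apply Complex.ext <;> simp
  rw [this, deriv_comp_const_add (f := fun t : ℝ => f ⟨t, s⟩), add_zero]

theorem deriv_ver (t s : ℝ) : deriv (fun s : ℝ => f ⟨t, s⟩) s = lineDeriv ℝ f ⟨t, s⟩ Complex.I := by
  rw [lineDeriv]
  have : (fun s' : ℝ => f ((⟨t, s⟩ : ℂ) + s' • Complex.I)) =
      fun s' : ℝ => (fun s => f ⟨t, s⟩) (s + s') := by
    funext s'
    simp only
    congr 1
    apply Complex.ext <;> simp
  rw [this, deriv_comp_const_add (f := fun s : ℝ => f ⟨t, s⟩), add_zero]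

/-- bounded measurable functions are integrable on bounded rectangles. -/
theorem integrableOn_rect_of_bdd {g : ℂ → ℝ} (hg : Measurable g) {A : ℝ} (hA : ∀ z, |g z| ≤ A)
    (hI : volume I < ⊤) (hJ : volume J < ⊤) : IntegrableOn g (rect I J) := by
  refine Measure.integrableOn_of_bounded (M := A) ?_ hg.aestronglyMeasurable
    (Eventually.of_forall fun x => hA x)
  rw [volume_rect]
  exact (ENNReal.mul_lt_top hI hJ).ne

/-- **Poincaré inequality on rectangles**, double integral form. -/
theorem poincare_rect (hf : IsLip f) (hI : OrdConnected I) (hJ : OrdConnected J)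
    (hIL : I ⊆ Icc α (α + L)) (hJL : J ⊆ Icc β (β + L)) (hL : 0 ≤ L) :
    ∫ x in rect I J, ∫ y in rect I J, (f x - f y) ^ 2 ≤
      2 * L ^ 4 * ∫ z in rect I J, ‖fderiv ℝ f z‖ ^ 2 := by
  have hIm : MeasurableSet I := hI.measurableSet
  have hJm : MeasurableSet J := hJ.measurableSet
  have hIfin : volume I < ⊤ := (measure_mono hIL).trans_lt measure_Icc_lt_top
  have hJfin : volume J < ⊤ := (measure_mono hJL).trans_lt measure_Icc_lt_top
  have hIr : volume.real I ≤ L := by
    have := measureReal_mono hIL (μ := volume) (by simp)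
    rwa [Real.volume_real_Icc_of_le (by linarith), add_sub_cancel_left] at this
  have hJr : volume.real J ≤ L := by
    have := measureReal_mono hJL (μ := volume) (by simp)
    rwa [Real.volume_real_Icc_of_le (by linarith), add_sub_cancel_left] at this
  obtain ⟨C, hC⟩ := id hf
  have hcont := hf.continuous
  have hbd : ∀ v z, |lineDeriv ℝ f z v| ≤ C * ‖v‖ := fun v z => by
    have := norm_lineDeriv_le_of_lipschitz ℝ hC (x₀ := z) (v := v)
    simpa using this
  set g : ℂ → ℝ := fun z => lineDeriv ℝ f z 1 ^ 2 with hg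
  set h : ℂ → ℝ := fun z => lineDeriv ℝ f z Complex.I ^ 2 with hh
  have hgm : Measurable g := (measurable_lineDeriv hcont).pow_const 2
  have hhm : Measurable h := (measurable_lineDeriv hcont).pow_const 2
  have hgA : ∀ z, |g z| ≤ (C : ℝ) ^ 2 := fun z => by
    rw [hg]; simp only [abs_pow]
    refine pow_le_pow_left₀ (abs_nonneg _) ?_ 2
    have := hbd 1 z
    simpa using this
  have hhA : ∀ z, |h z| ≤ (C : ℝ) ^ 2 := fun z => by
    rw [hh]; simp only [abs_pow]
    refine pow_le_pow_left₀ (abs_nonneg _) ?_ 2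
    have := hbd Complex.I z
    simpa using this
  have hg0 : ∀ z, 0 ≤ g z := fun z => sq_nonneg _
  have hh0 : ∀ z, 0 ≤ h z := fun z => sq_nonneg _
  have hgI : IntegrableOn g (rect I J) := integrableOn_rect_of_bdd hgm hgA hIfin hJfin
  have hhI : IntegrableOn h (rect I J) := integrableOn_rect_of_bdd hhm hhA hIfin hJfin
  set S : ℝ → ℝ := fun s => ∫ t in I, g ⟨t, s⟩ with hS
  set S' : ℝ → ℝ := fun t => ∫ s in J, h ⟨t, s⟩ with hS'
  -- integrability of S, S'
  have hgp := hgI
  have hhp := hhI
  rw [integrableOn_rect_iff, IntegrableOn, Measure.volume_eq_prod, ← Measure.prod_restrict] at hgp hhp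
  have hSm : Measurable S := by
    have hm : Measurable (fun p : ℝ × ℝ => g ⟨p.2, p.1⟩) :=
      hgm.comp (Complex.measurableEquivRealProd.symm.measurable.comp measurable_swap)
    exact (hm.stronglyMeasurable.integral_prod_right' (ν := volume.restrict I)).measurable
  have hSm' : Measurable S' := by
    have hm : Measurable (fun p : ℝ × ℝ => h ⟨p.1, p.2⟩) :=
      hhm.comp Complex.measurableEquivRealProd.symm.measurable
    exact (hm.stronglyMeasurable.integral_prod_right' (ν := volume.restrict J)).measurable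
  have hSA : ∀ s, |S s| ≤ (C : ℝ) ^ 2 * L := by
    intro s
    have := norm_setIntegral_le_of_norm_le_const (μ := volume) (s := I) (f := fun t => g ⟨t, s⟩)
      (C := (C : ℝ) ^ 2) hIfin (fun t _ => hgA _)
    refine this.trans ?_
    gcongr
  have hSA' : ∀ t, |S' t| ≤ (C : ℝ) ^ 2 * L := by
    intro t
    have := norm_setIntegral_le_of_norm_le_const (μ := volume) (s := J) (f := fun s => h ⟨t, s⟩)
      (C := (C : ℝ) ^ 2) hJfin (fun s _ => hhA _)
    refine this.trans ?_
    gcongr
  have hSI : IntegrableOn (fun z : ℂ => S z.im) (rect I J) :=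
    integrableOn_rect_of_bdd (hSm.comp Complex.measurable_im) (fun z => hSA _) hIfin hJfin
  have hSI' : IntegrableOn (fun z : ℂ => S' z.re) (rect I J) :=
    integrableOn_rect_of_bdd (hSm'.comp Complex.measurable_re) (fun z => hSA' _) hIfin hJfin
  have hSi : ∫ z in rect I J, S z.im = volume.real I * ∫ z in rect I J, g z := by
    rw [setIntegral_rect hSI, setIntegral_rect' hgI]
    simp only [setIntegral_const, smul_eq_mul]
    rfl
  have hSi' : ∫ z in rect I J, S' z.re = volume.real J * ∫ z in rect I J, h z := by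
    rw [setIntegral_rect' hSI', setIntegral_rect hhI]
    simp only [setIntegral_const, smul_eq_mul]
    rfl
  have hQfin : volume (rect I J) < ⊤ := by
    rw [volume_rect]; exact ENNReal.mul_lt_top hIfin hJfin
  have hconst : ∀ c : ℝ, Integrable (fun _ : ℂ => c) (volume.restrict (rect I J)) := fun c =>
    integrableOn_const hQfin.ne
  -- pointwise bound
  have hpt : ∀ x ∈ rect I J, ∀ y ∈ rect I J,
      (f x - f y) ^ 2 ≤ 2 * L * S x.im + 2 * L * S' y.re := by
    intro x hx y hy
    have h1 : (f x - f ⟨y.re, x.im⟩) ^ 2 ≤ L * S x.im := by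
      have := oned (isLip_hor hf x.im) hI hIL hx.1 hy.1
      simp only [deriv_hor] at this
      exact this
    have h2 : (f ⟨y.re, x.im⟩ - f y) ^ 2 ≤ L * S' y.re := by
      have := oned (isLip_ver hf y.re) hJ hJL hx.2 hy.2
      simp only [deriv_ver] at this
      exact this
    nlinarith [sq_nonneg ((f x - f ⟨y.re, x.im⟩) - (f ⟨y.re, x.im⟩ - f y))]
  have hfb : ∃ A, ∀ x ∈ rect I J, |f x| ≤ A := by
    rcases (rect I J).eq_empty_or_nonempty with he | ⟨x0, hx0⟩
    · exact ⟨0, fun x hx => by rw [he] at hx; exact hx.elim⟩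
    · refine ⟨|f x0| + C * (2 * L), fun x hx => ?_⟩
      have h1 := hC.dist_le_mul x x0
      rw [Real.dist_eq] at h1
      have h2 : dist x x0 ≤ 2 * L := by
        rw [Complex.dist_eq]
        refine (Complex.norm_le_abs_re_add_abs_im _).trans ?_
        have a1 := hIL hx.1
        have a2 := hIL hx0.1
        have a3 := hJL hx.2
        have a4 := hJL hx0.2
        have b1 : |(x - x0).re| ≤ L := by
          rw [Complex.sub_re, abs_le]
          constructor <;> linarith [a1.1, a1.2, a2.1, a2.2]
        have b2 : |(x - x0).im| ≤ L := by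
          rw [Complex.sub_im, abs_le]
          constructor <;> linarith [a3.1, a3.2, a4.1, a4.2]
        linarith
      have h3 : (C : ℝ) * dist x x0 ≤ C * (2 * L) := by gcongr
      have h4 := abs_sub_abs_le_abs_sub (f x) (f x0)
      linarith
  obtain ⟨A, hA⟩ := hfb
  have hrm := measurableSet_rect hIm hJm
  -- inner integral
  have hin : ∀ x ∈ rect I J, ∫ y in rect I J, (f x - f y) ^ 2 ≤
      2 * L * volume.real (rect I J) * S x.im + 2 * L * ∫ y in rect I J, S' y.re := by
    intro x hx
    have hi1 : IntegrableOn (fun y => (f x - f y) ^ 2) (rect I J) := by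
      refine Measure.integrableOn_of_bounded (M := (2 * A) ^ 2) hQfin.ne
        ((continuous_const.sub hcont).pow 2).measurable.aestronglyMeasurable ?_
      refine (ae_restrict_mem hrm).mono fun y hy => ?_
      rw [Real.norm_eq_abs, abs_pow]
      refine pow_le_pow_left₀ (abs_nonneg _) ?_ 2
      refine (abs_sub _ _).trans ?_
      linarith [hA x hx, hA y hy]
    have hi2 : IntegrableOn (fun y : ℂ => 2 * L * S x.im + 2 * L * S' y.re) (rect I J) :=
      (hconst _).add (hSI'.const_mul _)
    refine (setIntegral_mono_on hi1 hi2 hrm (fun y hy => hpt x hx y hy)).trans ?_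
    rw [integral_add (hconst _) (hSI'.const_mul _), setIntegral_const,
      integral_const_mul, smul_eq_mul]
    apply le_of_eq
    ring
  have hout : ∫ x in rect I J, ∫ y in rect I J, (f x - f y) ^ 2 ≤
      ∫ x in rect I J, (2 * L * volume.real (rect I J) * S x.im +
        2 * L * ∫ y in rect I J, S' y.re) := by
    have hi2 : IntegrableOn (fun x : ℂ => 2 * L * volume.real (rect I J) * S x.im +
        2 * L * ∫ y in rect I J, S' y.re) (rect I J) :=
      (hSI.const_mul _).add (hconst _)
    refine setIntegral_mono_on ?_ hi2 hrm hin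
    refine Measure.integrableOn_of_bounded (M := (2 * A) ^ 2 * volume.real (rect I J)) hQfin.ne
      ?_ ?_
    · have hm : Measurable (fun p : ℂ × ℂ => (f p.1 - f p.2) ^ 2) :=
        (((hcont.comp continuous_fst).sub (hcont.comp continuous_snd)).pow 2).measurable
      exact (hm.stronglyMeasurable.integral_prod_right'
        (ν := volume.restrict (rect I J))).aestronglyMeasurable
    · refine (ae_restrict_mem hrm).mono fun x hx => ?_
      refine norm_setIntegral_le_of_norm_le_const hQfin fun y hy => ?_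
      rw [Real.norm_eq_abs, abs_pow]
      refine pow_le_pow_left₀ (abs_nonneg _) ?_ 2
      refine (abs_sub _ _).trans ?_
      linarith [hA x hx, hA y hy]
  refine hout.trans ?_
  rw [integral_add (hSI.const_mul _) (hconst _), setIntegral_const,
    integral_const_mul, smul_eq_mul, hSi, hSi', volume_real_rect]
  -- compare with the gradient
  have hgrad : (∫ z in rect I J, g z) + ∫ z in rect I J, h z =
      ∫ z in rect I J, ‖fderiv ℝ f z‖ ^ 2 := by
    rw [← integral_add hgI hhI]
    refine integral_congr_ae (ae_restrict_of_ae ?_)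
    filter_upwards [ae_diff hf] with z hz
    rw [← ip_self, ip_eq, hg, hh]
    simp only [hz.lineDeriv_eq_fderiv, ee_zero, ee_one]
    ring
  have hg00 : 0 ≤ ∫ z in rect I J, g z := integral_nonneg hg0
  have hh00 : 0 ≤ ∫ z in rect I J, h z := integral_nonneg hh0
  have hi0 : 0 ≤ volume.real I := measureReal_nonneg
  have hj0 : 0 ≤ volume.real J := measureReal_nonneg
  rw [← hgrad]
  have e1 : 2 * L * (volume.real I * volume.real J) * (volume.real I * ∫ z in rect I J, g z) ≤
      2 * L * (L * L) * (L * ∫ z in rect I J, g z) := by gcongr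
  have e2 : volume.real I * volume.real J * (2 * L * (volume.real J * ∫ z in rect I J, h z)) ≤
      L * L * (2 * L * (L * ∫ z in rect I J, h z)) := by gcongr
  nlinarith [e1, e2]

end

end Pool.Agent.H95.Perf
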