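import Pool.Agent.H95.Perf.OneScaleB
import Pool.Agent.H41.Ev.Tors
import Pool.Agent.H85.Ev.Moll

/-!
# The perforation theorem (MP_898b17_an, module M5)
-/

open MeasureTheory Set Metric Filter Topology ContDiff
open scoped ENNReal RealInnerProductSpace

namespace Pool.Agent.H95.Perf

open Pool.Agent.H41.Ev (cellOf osq IsTest H10 RQ TLow)

/-- The hypothesis on test functions extends to Lipschitz functions. -/
theorem hyp_lipschitz {U : Set ℂ} (hU : IsOpen U) {Λ : ℝ} {V : ℂ → ℝ} (hV : Measurable V)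
    {C : ℝ} (hC : ∀ z, |V z| ≤ C)
    (hΛ : ∀ φ, IsTest U φ →
      Λ * ∫ z, φ z ^ 2 ≤ (∫ z, ‖gradient φ z‖ ^ 2) + ∫ z, V z * φ z ^ 2)
    {f : ℂ → ℝ} (hf : IsLip f) (hc : HasCompactSupport f) (hs : tsupport f ⊆ U) :
    Λ * ∫ z, f z ^ 2 ≤ (∫ z, ‖fderiv ℝ f z‖ ^ 2) + ∫ z, V z * f z ^ 2 := by
  obtain ⟨K, hK⟩ := hf
  have h := H10.of_lipschitz hU hK hc hs
  obtain ⟨φ, h1, h2, h3⟩ := h.approx
  have e1 := h.tendsto_integral_sq h1 h2
  have e2 := h.tendsto_integral_grad h1 h3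
  have e3 := Pool.Agent.H41.Ev.tendsto_eLpNorm_smul (an := fun _ => V) (a := V) (Gn := φ) (G := f)
    (C := C) (fun _ => hV.aestronglyMeasurable) (fun _ => Eventually.of_forall hC)
    (Eventually.of_forall fun z => tendsto_const_nhds) h.1 (fun n => (h1 n).memLp 2) h2
  have hVφ : ∀ n, MemLp (fun z => V z • φ n z) 2 volume := fun n => by
    refine ((h1 n).memLp 2).of_le_mul (c := C) (hV.aestronglyMeasurable.smul ((h1 n).memLp 2).1)
      (Eventually.of_forall fun z => ?_)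
    rw [norm_smul]
    exact mul_le_mul_of_nonneg_right (hC z) (norm_nonneg _)
  have e4 := Pool.Agent.H41.Ev.tendsto_integral_inner (fn := fun n z => V z • φ n z)
    (gn := φ) (f := fun z => V z • f z) (g := f) hVφ (fun n => (h1 n).memLp 2) e3.1 h.1 e3.2 h2
  have key : ∀ g : ℂ → ℝ, ∫ z, ⟪V z • g z, g z⟫ = ∫ z, V z * g z ^ 2 := by
    intro g
    refine integral_congr_ae (Eventually.of_forall fun z => ?_)
    simp only [smul_eq_mul, RCLike.inner_apply, conj_trivial]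
    ring
  simp only [key] at e4
  have e5 : ∫ z, ‖fderiv ℝ f z‖ ^ 2 = ∫ z, ‖gradient f z‖ ^ 2 := by
    refine integral_congr_ae (Eventually.of_forall fun z => ?_)
    simp only
    rw [Pool.Agent.H41.Ev.norm_gradient]
  rw [e5]
  exact le_of_tendsto_of_tendsto' (e1.const_mul Λ) (e2.add e4) fun n => hΛ (φ n) (h1 n)

/-- refined weights -/
noncomputable def kn (κ : ℤ × ℤ →₀ ℝ) (n : ℕ) (a : ℤ × ℤ) : ℝ := κ (a.1 / n, a.2 / n)

/-- refined index set -/
noncomputable def Pn (κ : ℤ × ℤ →₀ ℝ) (n : ℕ) : Finset (ℤ × ℤ) :=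
  κ.support.biUnion fun b => (Finset.Ico (n * b.1) (n * b.1 + n)) ×ˢ
    (Finset.Ico (n * b.2) (n * b.2 + n))

theorem mem_Pn (κ : ℤ × ℤ →₀ ℝ) {n : ℕ} (hn : 0 < n) (a : ℤ × ℤ) :
    a ∈ Pn κ n ↔ kn κ n a ≠ 0 := by
  have hn' : (0 : ℤ) < n := by exact_mod_cast hn
  have hdiv : ∀ x b : ℤ, (n * b ≤ x ∧ x < n * b + n) ↔ x / n = b := by
    intro x b
    rw [Int.ediv_eq_iff_of_pos hn']
    constructor
    · rintro ⟨h1, h2⟩
      constructor <;> nlinarith
    · rintro ⟨h1, h2⟩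
      constructor <;> nlinarith
  simp only [Pn, Finset.mem_biUnion, Finset.mem_product, Finset.mem_Ico, hdiv, kn,
    Finsupp.mem_support_iff]
  constructor
  · rintro ⟨b, hb, h1, h2⟩
    rwa [h1, h2]
  · intro h
    exact ⟨_, h, rfl, rfl⟩

theorem kn_cellOf (κ : ℤ × ℤ →₀ ℝ) {n : ℕ} (hn : 0 < n) (h : ℝ) (z : ℂ) :
    kn κ n (cellOf (h / n) z) = κ (cellOf h z) := by
  have hn' : (n : ℝ) ≠ 0 := by positivity
  have key : ∀ x : ℝ, ⌊x / (h / n)⌋ / (n : ℤ) = ⌊x / h⌋ := by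
    intro x
    rw [← Int.floor_div_natCast]
    congr 1
    by_cases hh : h = 0
    · simp [hh]
    · field_simp
  simp only [kn, cellOf, key]

theorem osq_subset {h : ℝ} (hh : 0 < h) {n : ℕ} (hn : 0 < n) (a : ℤ × ℤ) :
    osq (h / n) a ⊆ osq h (a.1 / n, a.2 / n) := by
  have hn' : (0 : ℤ) < n := by exact_mod_cast hn
  have hn0 : (0 : ℝ) < n := by exact_mod_cast hn
  have key : ∀ (k : ℤ) (x : ℝ), k * (h / n) < x → x < (k + 1) * (h / n) →
      ((k / n : ℤ) : ℝ) * h < x ∧ x < (((k / n : ℤ) : ℝ) + 1) * h := by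
    intro k x h1 h2
    have h3 : ((k / n : ℤ) : ℝ) * n ≤ k := by
      have := Int.ediv_mul_le k hn'.ne'
      exact_mod_cast this
    have h4 : (k : ℝ) + 1 ≤ (((k / n : ℤ) : ℝ) + 1) * n := by
      have := Int.lt_ediv_add_one_mul_self k hn'
      have h5 : k + 1 ≤ (k / n + 1) * n := by linarith
      exact_mod_cast h5
    have h6 : 0 < h / n := by positivity
    have e : h = n * (h / n) := by field_simp
    constructor
    · calc ((k / n : ℤ) : ℝ) * h = (((k / n : ℤ) : ℝ) * n) * (h / n) := by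
            field_simp
        _ ≤ k * (h / n) := by gcongr
        _ < x := h1
    · calc x < (k + 1) * (h / n) := h2
        _ ≤ ((((k / n : ℤ) : ℝ) + 1) * n) * (h / n) := by gcongr
        _ = (((k / n : ℤ) : ℝ) + 1) * h := by field_simp
  rintro z ⟨h1, h2, h3, h4⟩
  obtain ⟨a1, a2⟩ := key _ _ h1 h2
  obtain ⟨b1, b2⟩ := key _ _ h3 h4
  exact ⟨a1, a2, b1, b2⟩

theorem measurable_cellOf (h : ℝ) : Measurable (cellOf h) := by
  unfold cellOf
  exact (Int.measurable_floor.comp (Complex.measurable_re.div_const h)).prodMk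
    (Int.measurable_floor.comp (Complex.measurable_im.div_const h))

end Pool.Agent.H95.Perf

namespace Pool.Agent.H41.Ev

open Pool.Agent.H95.Perf

/-- **Perforation theorem.** `V = κ (cellOf h z)` is a step function on the grid of side `h`; the
open grid squares with `κ ≠ 0` are contained in `U`. -/
theorem perforation {U : Set ℂ} (hU : IsOpen U) (hfin : volume U < ⊤) {h : ℝ} (hh : 0 < h)
    (κ : ℤ × ℤ →₀ ℝ) (hκ0 : ∀ a, 0 ≤ κ a) (hκU : ∀ a, κ a ≠ 0 → osq h a ⊆ U) {Λ : ℝ}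
    (hΛ : ∀ φ, IsTest U φ →
      Λ * ∫ z, φ z ^ 2 ≤ (∫ z, ‖gradient φ z‖ ^ 2) + ∫ z, κ (cellOf h z) * φ z ^ 2)
    {φ₀ : ℂ → ℝ} (hφ₀ : IsTest U φ₀) {η : ℝ} (hη : 0 < η) :
    ∃ Ω' : Set ℂ, IsOpen Ω' ∧ Ω' ⊆ U ∧ RQ Ω' (Λ - η) ∧
      TLow Ω' (2 * (∫ z, φ₀ z) - (∫ z, ‖gradient φ₀ z‖ ^ 2) - (∫ z, κ (cellOf h z) * φ₀ z ^ 2)
        - η) := by
  classical
  -- the potential
  set V : ℂ → ℝ := fun z => κ (cellOf h z) with hVdef
  have hVm : Measurable V := (measurable_of_countable (fun a : ℤ × ℤ => κ a)).comp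
    (measurable_cellOf h)
  have hV0 : ∀ z, 0 ≤ V z := fun z => hκ0 _
  obtain ⟨K, hK0, hK⟩ : ∃ K : ℝ, 0 < K ∧ ∀ a, κ a ≤ K := by
    refine ⟨1 + ∑ a ∈ κ.support, κ a, ?_, fun a => ?_⟩
    · have : 0 ≤ ∑ a ∈ κ.support, κ a := Finset.sum_nonneg fun a _ => hκ0 a
      linarith
    · by_cases ha : a ∈ κ.support
      · have := Finset.single_le_sum (f := κ) (fun a _ => hκ0 a) ha
        linarith
      · rw [Finsupp.notMem_support_iff.1 ha]
        have : 0 ≤ ∑ a ∈ κ.support, κ a := Finset.sum_nonneg fun a _ => hκ0 a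
        linarith
  have hVK : ∀ z, |V z| ≤ K := fun z => by rw [abs_of_nonneg (hV0 z)]; exact hK _
  -- nonnegative version of Λ
  set Λ' := max Λ 0 with hΛ'def
  have hΛ'0 : 0 ≤ Λ' := le_max_right _ _
  have hΛ' : ∀ f : ℂ → ℝ, IsLip f → HasCompactSupport f → tsupport f ⊆ U →
      Λ' * ∫ z, f z ^ 2 ≤ (∫ z, ‖fderiv ℝ f z‖ ^ 2) + ∫ z, V z * f z ^ 2 := by
    intro f hf hc hs
    rcases le_total Λ 0 with hL | hL
    · rw [hΛ'def, max_eq_right hL, zero_mul]
      have h1 : 0 ≤ ∫ z, ‖fderiv ℝ f z‖ ^ 2 := integral_nonneg fun z => sq_nonneg _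
      have h2 : 0 ≤ ∫ z, V z * f z ^ 2 := integral_nonneg fun z =>
        mul_nonneg (hV0 z) (sq_nonneg _)
      linarith
    · rw [hΛ'def, max_eq_left hL]
      exact hyp_lipschitz hU hVm hVK hΛ hf hc hs
  -- the function φ₀
  have hφL : IsLip φ₀ := by
    obtain ⟨C, hC⟩ := hφ₀.contDiff.lipschitzWith_of_hasCompactSupport hφ₀.hasCompactSupport
      (by simp)
    exact ⟨C, hC⟩
  have hφc := hφ₀.hasCompactSupport
  obtain ⟨A, hA0, hA⟩ := Pool.Agent.H95.Perf.exists_bound hφL.continuous hφc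
  obtain ⟨D, hD0, hD⟩ : ∃ D : ℝ, 0 ≤ D ∧ ∀ x y, φ₀ x ^ 2 - φ₀ y ^ 2 ≤ D * dist x y := by
    obtain ⟨D, hD0, hD⟩ := (hφL.mul_bdd hφL hA hA).exists_abs_le
    refine ⟨D, hD0, fun x y => ?_⟩
    have := (le_abs_self _).trans (hD x y)
    calc φ₀ x ^ 2 - φ₀ y ^ 2 = φ₀ x * φ₀ x - φ₀ y * φ₀ y := by ring
      _ ≤ _ := this
  -- fixed quantities
  set S : ℝ := ∫ z, (if V z ≠ 0 then (1 : ℝ) else 0) with hSdef
  set T : ℝ := ∫ z, V z with hTdef
  set X : ℝ := ∫ z, V z * φ₀ z ^ 2 with hXdef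
  have hS0 : 0 ≤ S := integral_nonneg fun z => by positivity
  have hT0 : 0 ≤ T := integral_nonneg hV0
  have hX0 : 0 ≤ X := integral_nonneg fun z => mul_nonneg (hV0 z) (sq_nonneg _)
  -- choice of w
  set B : ℝ := 29 * Λ' + 6 * A * S + X + 1 with hBdef
  have hB0 : 0 < B := by positivity
  set w : ℝ := min (1 / 100) (η / (4 * B)) with hwdef
  have hw : 0 < w := lt_min (by norm_num) (by positivity)
  have hw1 : w ≤ 1 / 100 := min_le_left _ _
  have hwB : w * B ≤ η / 4 := by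
    have : w ≤ η / (4 * B) := min_le_right _ _
    rw [le_div_iff₀ (by positivity)] at this
    linarith
  -- choice of n
  obtain ⟨n, hn⟩ := exists_nat_gt (max (K * h ^ 2 / w ^ 4) (max (16 * D * h * T / η) 1))
  have hn1 : K * h ^ 2 / w ^ 4 < n := (le_max_left _ _).trans_lt hn
  have hn2 : 16 * D * h * T / η < n := ((le_max_left _ _).trans (le_max_right _ _)).trans_lt hn
  have hn3 : (1 : ℝ) < n := ((le_max_right _ _).trans (le_max_right _ _)).trans_lt hn
  have hnpos : 0 < n := by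
    rcases Nat.eq_zero_or_pos n with h0 | h0
    · rw [h0] at hn3; norm_num at hn3
    · exact h0
  have hn0 : (0 : ℝ) < n := by linarith
  set ε : ℝ := h / n with hεdef
  have hε : 0 < ε := by positivity
  set P := Pn κ n with hPdef
  set k := kn κ n with hkdef
  have hkpos : ∀ a ∈ P, 0 < k a := fun a ha =>
    lt_of_le_of_ne (hκ0 _) (Ne.symm ((mem_Pn κ hnpos a).1 ha))
  have hk0 : ∀ a, a ∉ P → k a = 0 := fun a ha => by
    by_contra hne
    exact ha ((mem_Pn κ hnpos a).2 hne)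
  have hkV : ∀ z, k (cellOf ε z) = V z := fun z => kn_cellOf κ hnpos h z
  have hkw : ∀ a ∈ P, k a * ε ^ 2 ≤ w ^ 4 := by
    intro a _
    have h1 : k a ≤ K := hK _
    rw [div_lt_iff₀ (by positivity)] at hn1
    have h2 : ε ^ 2 = h ^ 2 / n ^ 2 := by rw [hεdef]; ring
    rw [h2]
    calc k a * (h ^ 2 / n ^ 2) ≤ K * (h ^ 2 / n ^ 2) := by gcongr
      _ = K * h ^ 2 / n ^ 2 := by ring
      _ ≤ n * w ^ 4 / n ^ 2 := by gcongr
      _ = w ^ 4 / n := by field_simp
      _ ≤ w ^ 4 := by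
          apply div_le_self (by positivity) hn3.le
  have hkU : ∀ a ∈ P, closedBall (ctr ε a) (ε / 4) ⊆ U := by
    intro a ha
    refine (closedBall_subset_osq hε a).trans ((osq_subset hh hnpos a).trans (hκU _ ?_))
    exact (mem_Pn κ hnpos a).1 ha
  -- the set
  refine ⟨U \ ⋃ a ∈ P, closedBall (ctr ε a) (rad ε (k a)), ?_, sdiff_subset, ?_, ?_⟩
  · exact hU.sdiff (P.finite_toSet.isClosed_biUnion fun a _ => isClosed_closedBall)
  · intro φ hφ
    have hφL' : IsLip φ := by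
      obtain ⟨C, hC⟩ := hφ.contDiff.lipschitzWith_of_hasCompactSupport hφ.hasCompactSupport
        (by simp)
      exact ⟨C, hC⟩
    have hts := hφ.tsupport_subset
    have h0 : ∀ a ∈ P, ∀ x ∈ closedBall (ctr ε a) (rad ε (k a)), φ x = 0 := by
      intro a ha x hx
      refine image_eq_zero_of_notMem_tsupport fun hx' => (hts hx').2 ?_
      exact mem_iUnion₂.2 ⟨a, ha, hx⟩
    have hmain := one_scale_a (Λ := Λ') hε hkpos hk0 hw hw1 hkw hkU hΛ'0
      (by simpa only [hkV] using hΛ') hφL' hφ.hasCompactSupport (hts.trans sdiff_subset) h0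
    have e5 : ∫ z, ‖gradient φ z‖ ^ 2 = ∫ z, ‖fderiv ℝ φ z‖ ^ 2 := by
      refine integral_congr_ae (Eventually.of_forall fun z => ?_)
      simp only
      rw [Pool.Agent.H41.Ev.norm_gradient]
    rw [e5]
    refine le_trans ?_ hmain
    have hN0 : 0 ≤ ∫ z, φ z ^ 2 := integral_nonneg fun z => sq_nonneg _
    have hΛΛ : Λ ≤ Λ' := le_max_left _ _
    have h29 : 29 * w * Λ' ≤ η := by
      have : w * (29 * Λ') ≤ w * B := by
        gcongr
        rw [hBdef]
        have : 0 ≤ 6 * A * S := by positivity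
        linarith
      linarith
    calc (Λ - η) * ∫ z, φ z ^ 2 ≤ ((1 - 29 * w) * Λ') * ∫ z, φ z ^ 2 := by
          apply mul_le_mul_of_nonneg_right _ hN0
          linarith
      _ = _ := by ring
  · have hw1' : w ≤ 1 := by linarith
    obtain ⟨ψ, hψL, hψc, hψs, hψb, hψ⟩ := one_scale_b hε hkpos hk0 hw hw1' hkw hφL hφc hA hD hD0
    simp only [hkV] at hψ
    have hΩ'open : IsOpen (U \ ⋃ a ∈ P, closedBall (ctr ε a) (rad ε (k a))) :=
      hU.sdiff (P.finite_toSet.isClosed_biUnion fun a _ => isClosed_closedBall)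
    obtain ⟨C, hC⟩ := hψL
    have hH : H10 (U \ ⋃ a ∈ P, closedBall (ctr ε a) (rad ε (k a))) ψ (gradient ψ) := by
      refine H10.of_lipschitz hΩ'open hC hψc fun x hx => ⟨hφ₀.tsupport_subset (hψs hx), ?_⟩
      intro hx'
      obtain ⟨a, ha, hxa⟩ := mem_iUnion₂.1 hx'
      exact hψb a ha x hx hxa
    refine hH.tLow hΩ'open ((measure_mono sdiff_subset).trans_lt hfin) ?_
    -- sums
    have hSsum : ∑ a ∈ P, ε ^ 2 = S := by
      have h1 := integral_step hε P (κ := fun a => if k a ≠ 0 then (1 : ℝ) else 0)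
        (fun a ha => by simp [hk0 a ha]) (f := fun _ => (1 : ℝ))
        (fun a _ => integrableOn_cell continuous_const ε a)
      simp only [mul_one, hkV, setIntegral_const, smul_eq_mul, volume_real_cell hε] at h1
      rw [hSdef, h1]
      refine Finset.sum_congr rfl fun a ha => ?_
      rw [if_pos (hkpos a ha).ne', one_mul]
    have hTsum : ∑ a ∈ P, k a * ε ^ 2 = T := by
      have h1 := integral_step hε P hk0 (f := fun _ => (1 : ℝ))
        (fun a _ => integrableOn_cell continuous_const ε a)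
      simp only [mul_one, hkV, setIntegral_const, smul_eq_mul, volume_real_cell hε] at h1
      rw [hTdef, h1]
    rw [hSsum, hTsum] at hψ
    have e5 : ∀ f : ℂ → ℝ, ∫ z, ‖gradient f z‖ ^ 2 = ∫ z, ‖fderiv ℝ f z‖ ^ 2 := fun f => by
      refine integral_congr_ae (Eventually.of_forall fun z => ?_)
      simp only
      rw [Pool.Agent.H41.Ev.norm_gradient]
    rw [e5, e5]
    have herr : 6 * A * w ^ 2 * S + w ^ 4 * X + 4 * D * ε * T < η := by
      have hw2 : w ^ 2 ≤ w := by nlinarith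
      have hw4 : w ^ 4 ≤ w := by
        calc w ^ 4 = w ^ 2 * w ^ 2 := by ring
          _ ≤ w * 1 := by
            apply mul_le_mul hw2 _ (sq_nonneg _) hw.le
            nlinarith
          _ = w := mul_one w
      have h1 : 6 * A * w ^ 2 * S ≤ w * (6 * A * S) := by
        have : 0 ≤ 6 * A * S := by positivity
        nlinarith
      have h2 : w ^ 4 * X ≤ w * X := by gcongr
      have h3 : w * (6 * A * S) + w * X ≤ w * B := by
        rw [← mul_add]
        gcongr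
        rw [hBdef]
        linarith
      have h4 : 4 * D * ε * T ≤ η / 4 := by
        rw [div_lt_iff₀ hη] at hn2
        rw [hεdef]
        have : 4 * D * (h / n) * T = (4 * D * h * T) / n := by ring
        rw [this, div_le_iff₀ hn0]
        linarith
      linarith
    have hX' : ∫ z, V z * φ₀ z ^ 2 = X := rfl
    linarith

end Pool.Agent.H41.Ev
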