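import Mathlib

/-!
# Lipschitz functions on the plane: elementary tools

Tools for the perforation theorem (problem `MP_898b17_an`).
-/

open MeasureTheory Set Metric Filter Topology

namespace Pool.Agent.H95.Perf

/-- The plane. -/
abbrev E := ℂ

/-- `f` is Lipschitz with some constant. -/
def IsLip {X : Type*} [PseudoEMetricSpace X] (f : X → ℝ) : Prop := ∃ C, LipschitzWith C f

namespace IsLip

variable {X : Type*} [PseudoMetricSpace X] {f g : X → ℝ}

theorem continuous (hf : IsLip f) : Continuous f := hf.choose_spec.continuous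

theorem const (c : ℝ) : IsLip (fun _ : X => c) := ⟨0, LipschitzWith.const c⟩

theorem add (hf : IsLip f) (hg : IsLip g) : IsLip (fun x => f x + g x) := by
  obtain ⟨C, hC⟩ := hf
  obtain ⟨D, hD⟩ := hg
  exact ⟨C + D, hC.add hD⟩

theorem neg (hf : IsLip f) : IsLip (fun x => - f x) := by
  obtain ⟨C, hC⟩ := hf
  exact ⟨C, hC.neg⟩

theorem sub (hf : IsLip f) (hg : IsLip g) : IsLip (fun x => f x - g x) := by
  obtain ⟨C, hC⟩ := hf
  obtain ⟨D, hD⟩ := hg
  exact ⟨C + D, hC.sub hD⟩

theorem of_abs_le {K : ℝ} (h : ∀ x y, |f x - f y| ≤ K * dist x y) : IsLip f := by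
  refine ⟨Real.toNNReal K, LipschitzWith.of_dist_le_mul fun x y => ?_⟩
  rw [Real.dist_eq]
  refine (h x y).trans ?_
  gcongr
  exact Real.le_coe_toNNReal K

theorem exists_abs_le (hf : IsLip f) : ∃ K : ℝ, 0 ≤ K ∧ ∀ x y, |f x - f y| ≤ K * dist x y := by
  obtain ⟨C, hC⟩ := hf
  exact ⟨C, C.2, fun x y => by simpa [Real.dist_eq] using hC.dist_le_mul x y⟩

theorem mul_bdd (hf : IsLip f) (hg : IsLip g) {A B : ℝ} (hA : ∀ x, |f x| ≤ A)
    (hB : ∀ x, |g x| ≤ B) : IsLip (fun x => f x * g x) := by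
  obtain ⟨K, hK0, hK⟩ := hf.exists_abs_le
  obtain ⟨L, hL0, hL⟩ := hg.exists_abs_le
  rcases isEmpty_or_nonempty X with hX | ⟨⟨x0⟩⟩
  · exact ⟨0, fun x => (hX.false x).elim⟩
  have hA0 : 0 ≤ A := (abs_nonneg _).trans (hA x0)
  have hB0 : 0 ≤ B := (abs_nonneg _).trans (hB x0)
  refine of_abs_le (K := A * L + B * K) fun x y => ?_
  have : f x * g x - f y * g y = f x * (g x - g y) + g y * (f x - f y) := by ring
  rw [this]
  calc |f x * (g x - g y) + g y * (f x - f y)|
      ≤ |f x * (g x - g y)| + |g y * (f x - f y)| := abs_add_le _ _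
    _ = |f x| * |g x - g y| + |g y| * |f x - f y| := by rw [abs_mul, abs_mul]
    _ ≤ A * (L * dist x y) + B * (K * dist x y) := by
        gcongr
        · exact hA x
        · exact hL x y
        · exact hB y
        · exact hK x y
    _ = (A * L + B * K) * dist x y := by ring

theorem const_mul (hf : IsLip f) (c : ℝ) : IsLip (fun x => c * f x) := by
  obtain ⟨K, hK0, hK⟩ := hf.exists_abs_le
  refine of_abs_le (K := |c| * K) fun x y => ?_
  rw [← mul_sub, abs_mul, mul_assoc]
  gcongr
  exact hK x y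

theorem finset_sum {ι : Type*} (s : Finset ι) {F : ι → X → ℝ} (hF : ∀ i ∈ s, IsLip (F i)) :
    IsLip (fun x => ∑ i ∈ s, F i x) := by
  classical
  induction s using Finset.induction_on with
  | empty => simpa using const (X := X) 0
  | insert a s ha ih =>
    simp only [Finset.sum_insert ha]
    exact (hF a (Finset.mem_insert_self _ _)).add
      (ih fun i hi => hF i (Finset.mem_insert_of_mem hi))

theorem max (hf : IsLip f) (hg : IsLip g) : IsLip (fun x => Max.max (f x) (g x)) := by
  obtain ⟨C, hC⟩ := hf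
  obtain ⟨D, hD⟩ := hg
  exact ⟨_, hC.max hD⟩

theorem min (hf : IsLip f) (hg : IsLip g) : IsLip (fun x => Min.min (f x) (g x)) := by
  obtain ⟨C, hC⟩ := hf
  obtain ⟨D, hD⟩ := hg
  exact ⟨_, hC.min hD⟩

/-- Composition with a function that is Lipschitz on a set containing the range. -/
theorem comp_on {s : Set ℝ} {h : ℝ → ℝ} (hh : ∃ C, LipschitzOnWith C h s) (hf : IsLip f)
    (hs : ∀ x, f x ∈ s) : IsLip (fun x => h (f x)) := by
  obtain ⟨C, hC⟩ := hh
  obtain ⟨D, hD⟩ := hf
  refine ⟨C * D, ?_⟩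
  have := hC.comp (hD.lipschitzOnWith (s := univ)) (fun x _ => hs x)
  exact lipschitzOnWith_univ.1 this

end IsLip

/-- bounded: compactly supported continuous functions. -/
theorem exists_bound {f : E → ℝ} (hf : Continuous f) (hc : HasCompactSupport f) :
    ∃ A, 0 ≤ A ∧ ∀ x, |f x| ≤ A := by
  obtain ⟨A, hA⟩ := hf.bounded_above_of_compact_support hc
  refine ⟨max A 0, le_max_right _ _, fun x => ?_⟩
  exact (hA x).trans (le_max_left _ _)

end Pool.Agent.H95.Perf
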