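import Pool.Agent.H95.Perf.Poincare
import Pool.Agent.H41.Ev.Defs

/-!
# Grid cells
-/

open MeasureTheory Set Metric Filter Topology
open scoped RealInnerProductSpace Gradient

namespace Pool.Agent.H95.Perf

open Pool.Agent.H41.Ev (cellOf osq)

/-- half open grid cell -/
def cell (ε : ℝ) (a : ℤ × ℤ) : Set ℂ :=
  rect (Ico (a.1 * ε) ((a.1 + 1) * ε)) (Ico (a.2 * ε) ((a.2 + 1) * ε))

/-- its centre -/
noncomputable def ctr (ε : ℝ) (a : ℤ × ℤ) : ℂ := ⟨(a.1 + 1 / 2) * ε, (a.2 + 1 / 2) * ε⟩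

variable {ε : ℝ}

theorem mem_cell_iff (hε : 0 < ε) (a : ℤ × ℤ) (z : ℂ) : z ∈ cell ε a ↔ cellOf ε z = a := by
  have h : ∀ (x : ℝ) (k : ℤ), x ∈ Ico (k * ε) ((k + 1) * ε) ↔ ⌊x / ε⌋ = k := by
    intro x k
    rw [Int.floor_eq_iff, mem_Ico, le_div_iff₀ hε, div_lt_iff₀ hε]
  rw [cell, rect, mem_ofPred_eq, h, h, cellOf, Prod.ext_iff]

theorem measurableSet_cell (ε : ℝ) (a : ℤ × ℤ) : MeasurableSet (cell ε a) :=
  measurableSet_rect measurableSet_Ico measurableSet_Ico

theorem volume_real_cell (hε : 0 < ε) (a : ℤ × ℤ) : volume.real (cell ε a) = ε ^ 2 := by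
  rw [cell, volume_real_rect, Real.volume_real_Ico_of_le (by nlinarith),
    Real.volume_real_Ico_of_le (by nlinarith)]
  ring

theorem volume_cell_lt_top (ε : ℝ) (a : ℤ × ℤ) : volume (cell ε a) < ⊤ := by
  rw [cell, volume_rect]
  exact ENNReal.mul_lt_top measure_Ico_lt_top measure_Ico_lt_top

theorem disjoint_cell (hε : 0 < ε) {a b : ℤ × ℤ} (hab : a ≠ b) :
    Disjoint (cell ε a) (cell ε b) := by
  rw [Set.disjoint_left]
  intro z hz1 hz2
  rw [mem_cell_iff hε] at hz1 hz2
  exact hab (hz1.symm.trans hz2)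

theorem closedBall_subset_osq (hε : 0 < ε) (a : ℤ × ℤ) :
    closedBall (ctr ε a) (ε / 4) ⊆ osq ε a := by
  intro z hz
  rw [mem_closedBall, Complex.dist_eq] at hz
  have h1 := (Complex.abs_re_le_norm (z - ctr ε a)).trans hz
  have h2 := (Complex.abs_im_le_norm (z - ctr ε a)).trans hz
  rw [abs_le, Complex.sub_re] at h1
  rw [abs_le, Complex.sub_im] at h2
  simp only [ctr] at h1 h2
  refine ⟨?_, ?_, ?_, ?_⟩ <;> nlinarith [h1.1, h1.2, h2.1, h2.2]

theorem osq_subset_cell (ε : ℝ) (a : ℤ × ℤ) : osq ε a ⊆ cell ε a := by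
  rintro z ⟨h1, h2, h3, h4⟩
  exact ⟨⟨h1.le, h2⟩, ⟨h3.le, h4⟩⟩

theorem ball_subset_cell (hε : 0 < ε) (a : ℤ × ℤ) : ball (ctr ε a) (ε / 4) ⊆ cell ε a :=
  ball_subset_closedBall.trans ((closedBall_subset_osq hε a).trans (osq_subset_cell ε a))

theorem dist_ctr (hε : 0 < ε) {a b : ℤ × ℤ} (hab : a ≠ b) :
    2 * (ε / 4) < dist (ctr ε a) (ctr ε b) := by
  have hint : ∀ k l : ℤ, k ≠ l → (1 : ℝ) ≤ |(k : ℝ) - l| := by
    intro k l hkl
    have : (1 : ℤ) ≤ |k - l| := Int.one_le_abs (sub_ne_zero.2 hkl)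
    exact_mod_cast this
  rw [Complex.dist_eq]
  by_cases h1 : a.1 = b.1
  · have h2 : a.2 ≠ b.2 := fun h2 => hab (Prod.ext h1 h2)
    refine lt_of_lt_of_le ?_ (Complex.abs_im_le_norm _)
    rw [Complex.sub_im]
    simp only [ctr]
    have : ((a.2 : ℝ) + 1 / 2) * ε - (b.2 + 1 / 2) * ε = (a.2 - b.2) * ε := by ring
    rw [this, abs_mul, abs_of_pos hε]
    nlinarith [hint _ _ h2]
  · refine lt_of_lt_of_le ?_ (Complex.abs_re_le_norm _)
    rw [Complex.sub_re]
    simp only [ctr]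
    have : ((a.1 : ℝ) + 1 / 2) * ε - (b.1 + 1 / 2) * ε = (a.1 - b.1) * ε := by ring
    rw [this, abs_mul, abs_of_pos hε]
    nlinarith [hint _ _ h1]

theorem dist_le_of_mem_cell {a : ℤ × ℤ} {x y : ℂ} (hx : x ∈ cell ε a)
    (hy : y ∈ cell ε a) : dist x y ≤ 2 * ε := by
  rw [Complex.dist_eq]
  refine (Complex.norm_le_abs_re_add_abs_im _).trans ?_
  have b1 : |(x - y).re| ≤ ε := by
    rw [Complex.sub_re, abs_le]
    constructor <;> nlinarith [hx.1.1, hx.1.2, hy.1.1, hy.1.2]
  have b2 : |(x - y).im| ≤ ε := by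
    rw [Complex.sub_im, abs_le]
    constructor <;> nlinarith [hx.2.1, hx.2.2, hy.2.1, hy.2.2]
  linarith

/-- sum over cells of integrals of a nonnegative function -/
theorem sum_cell_le (hε : 0 < ε) (P : Finset (ℤ × ℤ)) {g : ℂ → ℝ} (hg : Integrable g)
    (hg0 : ∀ z, 0 ≤ g z) : ∑ a ∈ P, ∫ z in cell ε a, g z ≤ ∫ z, g z := by
  rw [← integral_biUnion_finset P (fun a _ => measurableSet_cell ε a)
    (fun a _ b _ hab => disjoint_cell hε hab) (fun a _ => hg.integrableOn)]
  exact setIntegral_le_integral hg (Eventually.of_forall hg0)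

/-- integral against a step function -/
theorem integral_step (hε : 0 < ε) (P : Finset (ℤ × ℤ)) {κ : ℤ × ℤ → ℝ}
    (hκ : ∀ a, a ∉ P → κ a = 0) {f : ℂ → ℝ} (hf : ∀ a ∈ P, IntegrableOn f (cell ε a)) :
    ∫ z, κ (cellOf ε z) * f z = ∑ a ∈ P, κ a * ∫ z in cell ε a, f z := by
  have h1 : ∀ z, κ (cellOf ε z) * f z = ∑ a ∈ P, (cell ε a).indicator (fun z => κ a * f z) z := by
    intro z
    by_cases hz : cellOf ε z ∈ P
    · rw [Finset.sum_eq_single_of_mem _ hz]
      · rw [indicator_of_mem ((mem_cell_iff hε _ _).2 rfl)]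
      · intro b _ hb
        rw [indicator_of_notMem]
        rw [mem_cell_iff hε]
        exact fun h => hb h.symm
    · rw [hκ _ hz, zero_mul, Finset.sum_eq_zero]
      intro b hb
      rw [indicator_of_notMem]
      rw [mem_cell_iff hε]
      intro h
      rw [h] at hz
      exact hz hb
  simp_rw [h1]
  rw [integral_finsetSum]
  · refine Finset.sum_congr rfl fun a _ => ?_
    rw [integral_indicator (measurableSet_cell ε a), integral_const_mul]
  · intro a ha
    exact (integrable_indicator_iff (measurableSet_cell ε a)).2 ((hf a ha).const_mul _)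

/-- **Poincaré inequality** on a cell, with mean over the inner disc. -/
theorem cell_poincare (hε : 0 < ε) (a : ℤ × ℤ) {f : ℂ → ℝ} (hf : IsLip f) {m : ℝ}
    (hm : ∫ y in ball (ctr ε a) (ε / 4), f y = m * (Real.pi * (ε / 4) ^ 2)) :
    ∫ x in cell ε a, (f x - m) ^ 2 ≤ 11 * ε ^ 2 * ∫ x in cell ε a, ‖fderiv ℝ f x‖ ^ 2 := by
  set B := ball (ctr ε a) (ε / 4) with hB
  have hBr : volume.real B = Real.pi * (ε / 4) ^ 2 := volume_real_ball _ (by positivity)
  have hBpos : 0 < volume.real B := by rw [hBr]; positivity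
  have hcont := hf.continuous
  have hK : IsCompact (closure (cell ε a)) := by
    refine Metric.isCompact_of_isClosed_isBounded isClosed_closure ?_
    refine Bornology.IsBounded.closure ?_
    rw [Metric.isBounded_iff]
    exact ⟨2 * ε, fun x hx y hy => dist_le_of_mem_cell hx hy⟩
  have hI : ∀ g : ℂ → ℝ, Continuous g → IntegrableOn g (cell ε a) := fun g hg =>
    (hg.continuousOn.integrableOn_compact hK).mono_set subset_closure
  have hIB : ∀ g : ℂ → ℝ, Continuous g → IntegrableOn g B := fun g hg =>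
    (hI g hg).mono_set (ball_subset_cell hε a)
  have : IsFiniteMeasure (volume.restrict B) := ⟨by
    rw [Measure.restrict_apply_univ]; exact measure_ball_lt_top⟩
  -- pointwise in x
  have h1 : ∀ x ∈ cell ε a, (f x - m) ^ 2 ≤
      (volume.real B)⁻¹ * ∫ y in cell ε a, (f x - f y) ^ 2 := by
    intro x _
    have e1 : ∫ y in B, (f x - f y) = volume.real B * (f x - m) := by
      rw [integral_sub (hIB _ continuous_const) (hIB _ hcont), setIntegral_const, smul_eq_mul, hm,
        ← hBr]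
      ring
    have e2 := sq_integral_le (μ := volume.restrict B) (g := fun y => f x - f y)
      (hIB _ (continuous_const.sub hcont)) (hIB _ ((continuous_const.sub hcont).pow 2))
    rw [e1, measureReal_restrict_apply_univ] at e2
    have e3 : ∫ y in B, (f x - f y) ^ 2 ≤ ∫ y in cell ε a, (f x - f y) ^ 2 :=
      setIntegral_mono_set (hI _ ((continuous_const.sub hcont).pow 2))
        (Eventually.of_forall fun y => sq_nonneg _)
        (Eventually.of_forall (ball_subset_cell hε a))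
    have e4 : volume.real B * (f x - m) ^ 2 ≤ ∫ y in B, (f x - f y) ^ 2 := by
      have : (volume.real B * (f x - m)) ^ 2 =
        volume.real B * (volume.real B * (f x - m) ^ 2) := by ring
      rw [this] at e2
      exact le_of_mul_le_mul_left e2 hBpos
    rw [le_inv_mul_iff₀ hBpos]
    exact e4.trans e3
  have hmeas : Measurable (fun x => ∫ y in cell ε a, (f x - f y) ^ 2) := by
    have hm : Measurable (fun p : ℂ × ℂ => (f p.1 - f p.2) ^ 2) :=
      (((hcont.comp continuous_fst).sub (hcont.comp continuous_snd)).pow 2).measurable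
    exact (hm.stronglyMeasurable.integral_prod_right'
      (ν := volume.restrict (cell ε a))).measurable
  obtain ⟨A, hA⟩ := hK.exists_bound_of_continuousOn hcont.continuousOn
  have hint : IntegrableOn (fun x => ∫ y in cell ε a, (f x - f y) ^ 2) (cell ε a) := by
    refine Measure.integrableOn_of_bounded (M := (2 * A) ^ 2 * volume.real (cell ε a))
      (volume_cell_lt_top ε a).ne hmeas.aestronglyMeasurable ?_
    refine (ae_restrict_mem (measurableSet_cell ε a)).mono fun x hx => ?_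
    refine norm_setIntegral_le_of_norm_le_const (volume_cell_lt_top ε a) fun y hy => ?_
    rw [Real.norm_eq_abs, abs_pow]
    refine pow_le_pow_left₀ (abs_nonneg _) ?_ 2
    refine (abs_sub _ _).trans ?_
    have h1 := hA x (subset_closure hx)
    have h2 := hA y (subset_closure hy)
    rw [Real.norm_eq_abs] at h1 h2
    linarith
  have h2 : ∫ x in cell ε a, (f x - m) ^ 2 ≤
      ∫ x in cell ε a, (volume.real B)⁻¹ * ∫ y in cell ε a, (f x - f y) ^ 2 :=
    setIntegral_mono_on (hI _ ((hcont.sub continuous_const).pow 2)) (hint.const_mul _)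
      (measurableSet_cell ε a) h1
  refine h2.trans ?_
  rw [integral_const_mul]
  have h3 := poincare_rect (α := a.1 * ε) (β := a.2 * ε) (L := ε) hf
    (I := Ico (a.1 * ε) ((a.1 + 1) * ε)) (J := Ico (a.2 * ε) ((a.2 + 1) * ε))
    ordConnected_Ico ordConnected_Ico
    (fun t ht => ⟨ht.1, by nlinarith [ht.2]⟩) (fun t ht => ⟨ht.1, by nlinarith [ht.2]⟩) hε.le
  change ∫ x in cell ε a, ∫ y in cell ε a, (f x - f y) ^ 2 ≤
    2 * ε ^ 4 * ∫ x in cell ε a, ‖fderiv ℝ f x‖ ^ 2 at h3
  have h4 : 0 ≤ ∫ x in cell ε a, ‖fderiv ℝ f x‖ ^ 2 := integral_nonneg fun x => sq_nonneg _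
  calc (volume.real B)⁻¹ * ∫ x in cell ε a, ∫ y in cell ε a, (f x - f y) ^ 2
      ≤ (volume.real B)⁻¹ * (2 * ε ^ 4 * ∫ x in cell ε a, ‖fderiv ℝ f x‖ ^ 2) := by gcongr
    _ = (32 / Real.pi) * ε ^ 2 * ∫ x in cell ε a, ‖fderiv ℝ f x‖ ^ 2 := by
        rw [hBr]
        have := Real.pi_pos
        field_simp
        ring
    _ ≤ 11 * ε ^ 2 * ∫ x in cell ε a, ‖fderiv ℝ f x‖ ^ 2 := by
        gcongr
        rw [div_le_iff₀ Real.pi_pos]
        linarith [Real.pi_gt_three]

end Pool.Agent.H95.Perf
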