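import Pool.Agent.H95.Perf.Basic

/-!
# The parabolic corrector

For `0 < r < R` the function `zz p r R` vanishes on the closed disc of radius `r` around `p`, equals
`1` outside the disc of radius `R`, and solves `-Δ z = 4 b` in between, with zero normal derivative
at the outer circle.  The main identity is `integral_ip_zz`.
-/

open MeasureTheory Set Metric Filter Topology
open scoped RealInnerProductSpace Gradient

namespace Pool.Agent.H95.Perf

/-! ### inner product of gradients -/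

/-- The inner product of the gradients of two functions. -/
noncomputable def ip (f g : E → ℝ) (x : E) : ℝ := ⟪∇ f x, ∇ g x⟫

theorem norm_gradient (f : E → ℝ) (x : E) : ‖∇ f x‖ = ‖fderiv ℝ f x‖ := by
  rw [← toDual_gradient, LinearIsometryEquiv.norm_map]

theorem ip_self (f : E → ℝ) (x : E) : ip f f x = ‖fderiv ℝ f x‖ ^ 2 := by
  rw [ip, real_inner_self_eq_norm_sq, norm_gradient]

theorem ip_comm (f g : E → ℝ) (x : E) : ip f g x = ip g f x := real_inner_comm _ _

theorem inner_gradient (f : E → ℝ) (x v : E) : ⟪∇ f x, v⟫ = fderiv ℝ f x v := by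
  rw [← toDual_gradient]; rfl

/-- the standard basis -/
noncomputable def ee (i : Fin 2) : E := ![1, Complex.I] i

/-- the coordinates -/
noncomputable def co (i : Fin 2) : E →L[ℝ] ℝ := ![Complex.reCLM, Complex.imCLM] i

@[simp] theorem ee_zero : ee 0 = 1 := rfl
@[simp] theorem ee_one : ee 1 = Complex.I := rfl
@[simp] theorem co_zero (x : E) : co 0 x = x.re := rfl
@[simp] theorem co_one (x : E) : co 1 x = x.im := rfl

theorem inner_eq (x y : E) : ⟪x, y⟫ = x.re * y.re + x.im * y.im := by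
  rw [Complex.inner]; simp; ring

theorem inner_ee (x : E) (i : Fin 2) : ⟪x, ee i⟫ = co i x := by
  fin_cases i <;> simp [ee, co]

theorem co_ee (i : Fin 2) : co i (ee i) = 1 := by
  fin_cases i <;> simp [ee, co]

theorem norm_ee (i : Fin 2) : ‖ee i‖ = 1 := by
  fin_cases i <;> simp [ee]

theorem abs_co_le (i : Fin 2) (x : E) : |co i x| ≤ ‖x‖ := by
  fin_cases i
  · exact Complex.abs_re_le_norm x
  · exact Complex.abs_im_le_norm x

theorem gradient_apply (f : E → ℝ) (x : E) (i : Fin 2) : co i (∇ f x) = fderiv ℝ f x (ee i) := by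
  rw [← inner_gradient, inner_ee]

theorem ip_eq (f g : E → ℝ) (x : E) :
    ip f g x = fderiv ℝ f x (ee 0) * fderiv ℝ g x (ee 0)
      + fderiv ℝ f x (ee 1) * fderiv ℝ g x (ee 1) := by
  rw [ip, ← gradient_apply, ← gradient_apply, ← gradient_apply, ← gradient_apply, inner_eq]
  simp

theorem measurable_gradient (f : E → ℝ) : Measurable (fun x => ∇ f x) := by
  have h : (fun x => ∇ f x) = fun x => (InnerProductSpace.toDual ℝ E).symm (fderiv ℝ f x) := rfl
  rw [h]
  exact (InnerProductSpace.toDual ℝ E).symm.continuous.measurable.comp (measurable_fderiv ℝ f)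

theorem measurable_ip (f g : E → ℝ) : Measurable (ip f g) :=
  (measurable_gradient f).inner (measurable_gradient g)

theorem abs_ip_le (f g : E → ℝ) (x : E) : |ip f g x| ≤ ‖fderiv ℝ f x‖ * ‖fderiv ℝ g x‖ := by
  rw [← norm_gradient, ← norm_gradient]
  exact abs_real_inner_le_norm _ _

/-- bounded measurable functions vanishing off a compact set are integrable. -/
theorem integrable_of_bdd {h : E → ℝ} (hm : Measurable h) {K : Set E} (hK : IsCompact K)
    {A : ℝ} (hA : ∀ x, |h x| ≤ A) (h0 : ∀ x, x ∉ K → h x = 0) : Integrable h := by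
  have : IntegrableOn h K := by
    refine Measure.integrableOn_of_bounded (M := A) hK.measure_lt_top.ne
      hm.aestronglyMeasurable ?_
    exact Eventually.of_forall fun x => by simpa using hA x
  rw [← integrableOn_univ]
  refine this.of_forall_sdiff_eq_zero MeasurableSet.univ fun x hx => h0 x hx.2

theorem ip_eq_zero_of_notMem_left {f : E → ℝ} (g : E → ℝ) {x : E} (hx : x ∉ tsupport f) :
    ip f g x = 0 := by
  have : fderiv ℝ f x = 0 := by
    by_contra h
    exact hx (support_fderiv_subset ℝ h)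
  rw [ip_eq, this]; simp

theorem integrable_ip {f g : E → ℝ} (hf : IsLip f) (hg : IsLip g) (hc : HasCompactSupport f) :
    Integrable (ip f g) := by
  obtain ⟨C, hC⟩ := hf
  obtain ⟨D, hD⟩ := hg
  refine integrable_of_bdd (measurable_ip f g) hc (A := C * D) (fun x => ?_)
    (fun x hx => ip_eq_zero_of_notMem_left g hx)
  refine (abs_ip_le f g x).trans ?_
  gcongr
  · exact norm_fderiv_le_of_lipschitz ℝ hC
  · exact norm_fderiv_le_of_lipschitz ℝ hD

/-! ### one-dimensional facts -/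

theorem key_log {a c R : ℝ} (ha : 0 < a) (hac : a ≤ c) (hcR : c ≤ R) :
    c ^ 2 - a ^ 2 ≤ 2 * R ^ 2 * Real.log (c / a) := by
  have hc : 0 < c := ha.trans_le hac
  have h1 : 1 - (a / c) ^ 2 ≤ 2 * Real.log (c / a) := by
    have h2 := Real.log_le_sub_one_of_pos (x := (a / c) ^ 2) (by positivity)
    rw [Real.log_pow, ← neg_neg (Real.log (a / c)), ← Real.log_inv, inv_div] at h2
    push_cast at h2
    linarith
  have h3 : 0 ≤ 1 - (a / c) ^ 2 := by
    have : (a / c) ^ 2 ≤ 1 := by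
      apply pow_le_one₀ (by positivity)
      rw [div_le_one hc]; exact hac
    linarith
  calc c ^ 2 - a ^ 2 = c ^ 2 * (1 - (a / c) ^ 2) := by field_simp
    _ ≤ R ^ 2 * (1 - (a / c) ^ 2) := by gcongr
    _ ≤ R ^ 2 * (2 * Real.log (c / a)) := by gcongr
    _ = _ := by ring

theorem den_pos {r R : ℝ} (hr : 0 < r) (hrR : r < R) :
    0 < 2 * R ^ 2 * Real.log (R / r) - (R ^ 2 - r ^ 2) := by
  have hR : 0 < R := hr.trans hrR
  have h1 : 1 - (r / R) ^ 2 < 2 * Real.log (R / r) := by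
    have h2 := Real.log_lt_sub_one_of_pos (x := (r / R) ^ 2) (by positivity) (by
      have : (r / R) ^ 2 < 1 := by
        apply pow_lt_one₀ (by positivity) _ two_ne_zero
        rw [div_lt_one hR]; exact hrR
      exact this.ne)
    rw [Real.log_pow, ← neg_neg (Real.log (r / R)), ← Real.log_inv, inv_div] at h2
    push_cast at h2
    linarith
  have : R ^ 2 - r ^ 2 = R ^ 2 * (1 - (r / R) ^ 2) := by field_simp
  rw [this]
  have h4 : R ^ 2 * (1 - (r / R) ^ 2) < R ^ 2 * (2 * Real.log (R / r)) := by gcongr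
  linarith

/-- the constant `b` -/
noncomputable def bb (r R : ℝ) : ℝ := 1 / (2 * R ^ 2 * Real.log (R / r) - (R ^ 2 - r ^ 2))

theorem bb_pos {r R : ℝ} (hr : 0 < r) (hrR : r < R) : 0 < bb r R :=
  one_div_pos.2 (den_pos hr hrR)

/-- profile of the corrector -/
noncomputable def Zf (r R m : ℝ) : ℝ := bb r R * (2 * R ^ 2 * Real.log (m / r) - (m ^ 2 - r ^ 2))

theorem Zf_left {r R : ℝ} (hr : 0 < r) : Zf r R r = 0 := by
  simp [Zf, div_self hr.ne']

theorem Zf_right {r R : ℝ} (hr : 0 < r) (hrR : r < R) : Zf r R R = 1 := by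
  rw [Zf, bb, one_div, inv_mul_cancel₀ (den_pos hr hrR).ne']

theorem Zf_sub {r R m m' : ℝ} (hr : 0 < r) (hm : r ≤ m) (hm' : r ≤ m') :
    Zf r R m' - Zf r R m = bb r R * (2 * R ^ 2 * Real.log (m' / m) - (m' ^ 2 - m ^ 2)) := by
  have h1 : 0 < m := hr.trans_le hm
  have h2 : 0 < m' := hr.trans_le hm'
  rw [Zf, Zf, Real.log_div h1.ne' hr.ne', Real.log_div h2.ne' hr.ne', Real.log_div h2.ne' h1.ne']
  ring

theorem Zf_mono {r R m m' : ℝ} (hr : 0 < r) (hrR : r < R) (hm : r ≤ m) (hmm : m ≤ m')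
    (hm' : m' ≤ R) : Zf r R m ≤ Zf r R m' := by
  have h := Zf_sub (R := R) hr hm (hm.trans hmm)
  have h2 := key_log (hr.trans_le hm) hmm hm'
  have h3 := mul_nonneg (bb_pos hr hrR).le (sub_nonneg.2 h2)
  linarith

theorem one_sub_Zf_le {r R m : ℝ} (hr : 0 < r) (hrR : r < R) (hm : r ≤ m) (hmR : m ≤ R) :
    1 - Zf r R m ≤ 2 * bb r R * R ^ 2 * Real.log (R / m) := by
  have h := Zf_sub (R := R) hr hm hrR.le
  rw [Zf_right hr hrR] at h
  rw [h]
  have hm0 : 0 < m := hr.trans_le hm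
  have : 0 ≤ bb r R * (R ^ 2 - m ^ 2) := by
    apply mul_nonneg (bb_pos hr hrR).le
    nlinarith
  linarith

/-! ### the corrector -/

/-- clamp of the distance to `p` between `r` and `R` -/
noncomputable def cl (p : E) (r R : ℝ) (x : E) : ℝ := max r (min ‖x - p‖ R)

/-- the corrector -/
noncomputable def zz (p : E) (r R : ℝ) (x : E) : ℝ := Zf r R (cl p r R x)

theorem cl_mem (p : E) {r R : ℝ} (hrR : r < R) (x : E) : cl p r R x ∈ Icc r R :=
  ⟨le_max_left _ _, max_le hrR.le (min_le_right _ _)⟩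

theorem isLip_dist (p : E) : IsLip (fun x : E => ‖x - p‖) := by
  refine IsLip.of_abs_le (K := 1) fun x y => ?_
  rw [one_mul, dist_eq_norm]
  have := abs_norm_sub_norm_le (x - p) (y - p)
  simpa using this

theorem isLip_cl (p : E) (r R : ℝ) : IsLip (cl p r R) :=
  (IsLip.const r).max ((isLip_dist p).min (IsLip.const R))

theorem isLip_zz (p : E) {r R : ℝ} (hr : 0 < r) (hrR : r < R) : IsLip (zz p r R) := by
  refine IsLip.comp_on (s := Icc r R) ?_ (isLip_cl p r R) (cl_mem p hrR)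
  refine ContDiffOn.exists_lipschitzOnWith (n := 1) ?_ one_ne_zero (convex_Icc _ _) isCompact_Icc
  have h0 : ∀ x ∈ Icc r R, x / r ≠ 0 := fun x hx => (div_pos (hr.trans_le hx.1) hr).ne'
  unfold Zf
  refine contDiffOn_const.mul ((contDiffOn_const.mul ?_).sub ((contDiffOn_id.pow 2).sub
    contDiffOn_const))
  exact (contDiffOn_id.div_const r).log h0

theorem zz_nonneg (p : E) {r R : ℝ} (hr : 0 < r) (hrR : r < R) (x : E) : 0 ≤ zz p r R x := by
  have h := cl_mem p hrR x
  rw [← Zf_left (R := R) hr]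
  exact Zf_mono hr hrR le_rfl h.1 h.2

theorem zz_le_one (p : E) {r R : ℝ} (hr : 0 < r) (hrR : r < R) (x : E) : zz p r R x ≤ 1 := by
  have h := cl_mem p hrR x
  rw [← Zf_right (R := R) hr hrR]
  exact Zf_mono hr hrR h.1 h.2 le_rfl

theorem zz_eq_zero (p : E) {r R : ℝ} (hr : 0 < r) {x : E} (hx : ‖x - p‖ ≤ r) :
    zz p r R x = 0 := by
  have : cl p r R x = r := max_eq_left ((min_le_left _ _).trans hx)
  rw [zz, this, Zf_left hr]

theorem zz_eq_one (p : E) {r R : ℝ} (hr : 0 < r) (hrR : r < R) {x : E} (hx : R ≤ ‖x - p‖) :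
    zz p r R x = 1 := by
  have : cl p r R x = R := by rw [cl, min_eq_right hx, max_eq_right hrR.le]
  rw [zz, this, Zf_right hr hrR]

theorem cl_eq (p : E) {r R : ℝ} {x : E} (h1 : r ≤ ‖x - p‖) (h2 : ‖x - p‖ ≤ R) :
    cl p r R x = ‖x - p‖ := by rw [cl, min_eq_left h2, max_eq_right h1]

/-- the three regions, up to a null set -/
theorem ae_regions (p : E) (r R : ℝ) :
    ∀ᵐ x : E, ‖x - p‖ < r ∨ (r < ‖x - p‖ ∧ ‖x - p‖ < R) ∨ R < ‖x - p‖ := by
  have h1 : ∀ᵐ x : E, x ∉ sphere p r := measure_eq_zero_iff_ae_notMem.1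
    (Measure.addHaar_sphere volume p r)
  have h2 : ∀ᵐ x : E, x ∉ sphere p R := measure_eq_zero_iff_ae_notMem.1
    (Measure.addHaar_sphere volume p R)
  filter_upwards [h1, h2] with x hx1 hx2
  rw [mem_sphere, dist_eq_norm] at hx1 hx2
  rcases lt_trichotomy ‖x - p‖ r with h | h | h
  · exact Or.inl h
  · exact absurd h hx1
  · rcases lt_trichotomy ‖x - p‖ R with h' | h' | h'
    · exact Or.inr (Or.inl ⟨h, h'⟩)
    · exact absurd h' hx2
    · exact Or.inr (Or.inr h')

theorem eventually_lt_norm {p : E} {a : ℝ} {x : E} (hx : ‖x - p‖ < a) :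
    ∀ᶠ y in 𝓝 x, ‖y - p‖ < a := by
  have : Continuous fun y : E => ‖y - p‖ := by fun_prop
  exact this.continuousAt.eventually_lt continuousAt_const hx

theorem eventually_gt_norm {p : E} {a : ℝ} {x : E} (hx : a < ‖x - p‖) :
    ∀ᶠ y in 𝓝 x, a < ‖y - p‖ := by
  have : Continuous fun y : E => ‖y - p‖ := by fun_prop
  exact continuousAt_const.eventually_lt this.continuousAt hx

theorem fderiv_zz_in (p : E) {r R : ℝ} (hr : 0 < r) {x : E} (hx : ‖x - p‖ < r) :
    fderiv ℝ (zz p r R) x = 0 := by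
  have : zz p r R =ᶠ[𝓝 x] fun _ => (0 : ℝ) := by
    filter_upwards [eventually_lt_norm hx] with y hy
    exact zz_eq_zero p hr hy.le
  rw [this.fderiv_eq]; simp

theorem fderiv_zz_out (p : E) {r R : ℝ} (hr : 0 < r) (hrR : r < R) {x : E}
    (hx : R < ‖x - p‖) : fderiv ℝ (zz p r R) x = 0 := by
  have : zz p r R =ᶠ[𝓝 x] fun _ => (1 : ℝ) := by
    filter_upwards [eventually_gt_norm hx] with y hy
    exact zz_eq_one p hr hrR hy.le
  rw [this.fderiv_eq]; simp

theorem hasFDerivAt_normsq (p x : E) :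
    HasFDerivAt (fun y : E => ‖y - p‖ ^ 2) ((2 : ℝ) • innerSL ℝ (x - p)) x := by
  have h := (hasStrictFDerivAt_norm_sq (x - p)).hasFDerivAt
  have h2 : HasFDerivAt (fun y : E => y - p) (ContinuousLinearMap.id ℝ E) x :=
    (hasFDerivAt_id x).sub_const p
  have h3 := h.comp x h2
  rw [ContinuousLinearMap.comp_id, ← Nat.cast_smul_eq_nsmul ℝ, Nat.cast_ofNat] at h3
  exact h3

theorem fderiv_zz_mid (p : E) {r R : ℝ} (hr : 0 < r) {x : E} (h1 : r < ‖x - p‖)
    (h2 : ‖x - p‖ < R) (v : E) :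
    fderiv ℝ (zz p r R) x v = 2 * bb r R * (R ^ 2 / ‖x - p‖ ^ 2 - 1) * ⟪x - p, v⟫ := by
  have hev : zz p r R =ᶠ[𝓝 x] fun y =>
      bb r R * (R ^ 2 * (Real.log (‖y - p‖ ^ 2) - Real.log (r ^ 2)) - (‖y - p‖ ^ 2 - r ^ 2)) := by
    filter_upwards [eventually_gt_norm h1, eventually_lt_norm h2] with y hy1 hy2
    have hy0 : 0 < ‖y - p‖ := hr.trans hy1
    rw [zz, cl_eq p hy1.le hy2.le, Zf, Real.log_div hy0.ne' hr.ne', Real.log_pow, Real.log_pow]
    push_cast
    ring
  have hx0 : 0 < ‖x - p‖ := hr.trans h1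
  have hN := hasFDerivAt_normsq p x
  have hlog := hN.log (by positivity)
  have hd := (((hlog.sub_const (Real.log (r ^ 2))).const_mul (R ^ 2)).fun_sub
    (hN.sub_const (r ^ 2))).const_mul (bb r R)
  rw [hev.fderiv_eq, hd.fderiv]
  simp only [smul_apply, sub_apply, innerSL_apply_apply, smul_eq_mul]
  field_simp

/-- components of the vector field `∇ z` (continued inside the small disc) -/
noncomputable def gg (p : E) (r R : ℝ) (i : Fin 2) (x : E) : ℝ :=
  2 * bb r R * ((R ^ 2 / (cl p r R x) ^ 2 - 1) * max (-R) (min (co i (x - p)) R))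

theorem isLip_coord (i : Fin 2) (p : E) : IsLip (fun x : E => co i (x - p)) := by
  refine IsLip.of_abs_le (K := 1) fun x y => ?_
  rw [one_mul, dist_eq_norm, ← map_sub, sub_sub_sub_cancel_right]
  exact abs_co_le i _

theorem isLip_gg (p : E) {r R : ℝ} (hr : 0 < r) (hrR : r < R) (i : Fin 2) :
    IsLip (gg p r R i) := by
  have hR : 0 < R := hr.trans hrR
  have h1 : IsLip (fun x => R ^ 2 / (cl p r R x) ^ 2 - 1) := by
    refine IsLip.comp_on (s := Icc r R) (h := fun m => R ^ 2 / m ^ 2 - 1) ?_ (isLip_cl p r R)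
      (cl_mem p hrR)
    refine ContDiffOn.exists_lipschitzOnWith (n := 1) ?_ one_ne_zero (convex_Icc _ _)
      isCompact_Icc
    refine (contDiffOn_const.div (contDiffOn_id.pow 2) fun x hx => ?_).sub contDiffOn_const
    have : 0 < x := hr.trans_le hx.1
    positivity
  have h2 : IsLip (fun x : E => max (-R) (min (co i (x - p)) R)) :=
    (IsLip.const (-R)).max ((isLip_coord i p).min (IsLip.const R))
  refine IsLip.const_mul (IsLip.mul_bdd h1 h2 (A := R ^ 2 / r ^ 2) (B := R) (fun x => ?_)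
    (fun x => ?_)) _
  · have h := cl_mem p hrR x
    have h0 : 0 < cl p r R x := hr.trans_le h.1
    have h3 : 1 ≤ R ^ 2 / (cl p r R x) ^ 2 := by
      rw [one_le_div (by positivity)]
      gcongr
      exact h.2
    rw [abs_of_nonneg (by linarith)]
    have : R ^ 2 / (cl p r R x) ^ 2 ≤ R ^ 2 / r ^ 2 := by
      gcongr
      exact h.1
    linarith
  · rw [abs_le]
    exact ⟨le_max_left _ _, max_le (by linarith) (min_le_right _ _)⟩

theorem gg_out (p : E) {r R : ℝ} (hr : 0 < r) (hrR : r < R) (i : Fin 2) {x : E}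
    (hx : R ≤ ‖x - p‖) : gg p r R i x = 0 := by
  have hR : 0 < R := hr.trans hrR
  have : cl p r R x = R := by rw [cl, min_eq_right hx, max_eq_right hrR.le]
  rw [gg, this, div_self (by positivity)]
  simp

theorem gg_mid (p : E) {r R : ℝ} (i : Fin 2) {x : E}
    (h1 : r ≤ ‖x - p‖) (h2 : ‖x - p‖ ≤ R) :
    gg p r R i x = 2 * bb r R * ((R ^ 2 / ‖x - p‖ ^ 2 - 1) * co i (x - p)) := by
  have h3 : |co i (x - p)| ≤ R := (abs_co_le i _).trans h2
  rw [abs_le] at h3
  rw [gg, cl_eq p h1 h2, min_eq_left h3.2, max_eq_right h3.1]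

theorem hasCompactSupport_gg (p : E) {r R : ℝ} (hr : 0 < r) (hrR : r < R) (i : Fin 2) :
    HasCompactSupport (gg p r R i) := by
  refine HasCompactSupport.intro (K := closedBall p R) (isCompact_closedBall p R) fun x hx => ?_
  apply gg_out p hr hrR
  rw [mem_closedBall, dist_eq_norm, not_le] at hx
  exact hx.le

theorem hasFDerivAt_coord (p x : E) (i : Fin 2) :
    HasFDerivAt (fun y : E => co i (y - p)) (co i) x := by
  have h2 : HasFDerivAt (fun y : E => y - p) (ContinuousLinearMap.id ℝ E) x :=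
    (hasFDerivAt_id x).sub_const p
  have h3 := ((co i).hasFDerivAt (x := x - p)).comp x h2
  rw [ContinuousLinearMap.comp_id] at h3
  exact h3

theorem fderiv_gg_mid (p : E) {r R : ℝ} (hr : 0 < r) (i : Fin 2) {x : E} (h1 : r < ‖x - p‖)
    (h2 : ‖x - p‖ < R) :
    fderiv ℝ (gg p r R i) x (ee i) = 2 * bb r R *
      (-(2 * R ^ 2 * (co i (x - p)) ^ 2 / ‖x - p‖ ^ 4) + (R ^ 2 / ‖x - p‖ ^ 2 - 1)) := by
  have hev : gg p r R i =ᶠ[𝓝 x] fun y =>
      2 * bb r R * ((R ^ 2 * (‖y - p‖ ^ 2)⁻¹ - 1) * co i (y - p)) := by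
    filter_upwards [eventually_gt_norm h1, eventually_lt_norm h2] with y hy1 hy2
    rw [gg_mid p i hy1.le hy2.le, div_eq_mul_inv]
  have hx0 : 0 < ‖x - p‖ := hr.trans h1
  have hN := hasFDerivAt_normsq p x
  have hinv : HasFDerivAt (fun y : E => (‖y - p‖ ^ 2)⁻¹)
      (-((‖x - p‖ ^ 2) ^ 2)⁻¹ • (2 : ℝ) • innerSL ℝ (x - p)) x :=
    HasDerivAt.comp_hasFDerivAt x (hasDerivAt_inv (x := ‖x - p‖ ^ 2) (by positivity)) hN
  have hd := (((hinv.const_mul (R ^ 2)).sub_const 1).fun_mul (hasFDerivAt_coord p x i)).const_mul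
    (2 * bb r R)
  rw [hev.fderiv_eq, hd.fderiv]
  simp only [smul_apply, add_apply, innerSL_apply_apply, smul_eq_mul]
  rw [inner_ee, co_ee]
  field_simp
  ring

theorem fderiv_gg_out (p : E) {r R : ℝ} (hr : 0 < r) (hrR : r < R) (i : Fin 2) {x : E}
    (hx : R < ‖x - p‖) : fderiv ℝ (gg p r R i) x = 0 := by
  have : gg p r R i =ᶠ[𝓝 x] fun _ => (0 : ℝ) := by
    filter_upwards [eventually_gt_norm hx] with y hy
    exact gg_out p hr hrR i hy.le
  rw [this.fderiv_eq]; simp

theorem norm_sq_eq (x : E) : ‖x‖ ^ 2 = co 0 x ^ 2 + co 1 x ^ 2 := by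
  rw [Complex.sq_norm, Complex.normSq_apply]
  simp
  ring

/-- a.e. identification of a line derivative with the Fréchet derivative -/
theorem ae_lineDeriv_eq {f : E → ℝ} (hf : IsLip f) (v : E) :
    ∀ᵐ x : E, lineDeriv ℝ f x v = fderiv ℝ f x v := by
  obtain ⟨C, hC⟩ := hf
  filter_upwards [hC.ae_differentiableAt] with x hx
  exact hx.lineDeriv_eq_fderiv

/-- integration by parts -/
theorem integral_fderiv_mul {f g : E → ℝ} (hf : IsLip f) (hg : IsLip g)
    (hc : HasCompactSupport g) (v : E) :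
    ∫ x, fderiv ℝ f x v * g x = - ∫ x, fderiv ℝ g x v * f x := by
  have h1 : ∫ x, fderiv ℝ f x v * g x = ∫ x, lineDeriv ℝ f x v * g x := by
    refine integral_congr_ae ?_
    filter_upwards [ae_lineDeriv_eq hf v] with x hx
    rw [hx]
  have h2 : ∫ x, lineDeriv ℝ g x (-v) * f x = - ∫ x, fderiv ℝ g x v * f x := by
    rw [← integral_neg]
    refine integral_congr_ae ?_
    filter_upwards [ae_lineDeriv_eq hg (-v)] with x hx
    rw [hx, map_neg]
    ring
  obtain ⟨C, hC⟩ := hf
  obtain ⟨D, hD⟩ := hg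
  rw [h1, hC.integral_lineDeriv_mul_eq hD hc v, h2]

/-- **Main identity** for the parabolic corrector. -/
theorem integral_ip_zz (p : E) {r R : ℝ} (hr : 0 < r) (hrR : r < R) {ψ : E → ℝ} (hψ : IsLip ψ)
    (h0 : ∀ x ∈ closedBall p r, ψ x = 0) :
    ∫ x, ip (zz p r R) ψ x = 4 * bb r R * ∫ x in ball p R, ψ x := by
  have hI : ∀ i : Fin 2, Integrable (fun x => fderiv ℝ ψ x (ee i) * gg p r R i x) := by
    intro i
    obtain ⟨C, hC⟩ := hψ
    obtain ⟨A, hA0, hA⟩ := exists_bound (isLip_gg p hr hrR i).continuous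
      (hasCompactSupport_gg p hr hrR i)
    refine integrable_of_bdd ?_ (hasCompactSupport_gg p hr hrR i) (A := C * ‖ee i‖ * A)
      (fun x => ?_) (fun x hx => ?_)
    · exact (measurable_fderiv_apply_const ℝ ψ (ee i)).mul
        (isLip_gg p hr hrR i).continuous.measurable
    · rw [abs_mul]
      gcongr
      · refine ((fderiv ℝ ψ x).le_opNorm (ee i)).trans ?_
        gcongr
        exact norm_fderiv_le_of_lipschitz ℝ hC
      · exact hA x
    · rw [image_eq_zero_of_notMem_tsupport hx, mul_zero]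
  have hJ : ∀ i : Fin 2, Integrable (fun x => fderiv ℝ (gg p r R i) x (ee i) * ψ x) := by
    intro i
    obtain ⟨C, hC⟩ := isLip_gg p hr hrR i
    have hcont := hψ.continuous
    obtain ⟨A, hA⟩ := (isCompact_closedBall p R).exists_bound_of_continuousOn
      (f := ψ) hcont.continuousOn
    have hA0 : ∀ x ∈ closedBall p R, |ψ x| ≤ max A 0 := fun x hx =>
      (hA x hx).trans (le_max_left _ _)
    refine integrable_of_bdd ?_ (isCompact_closedBall p R) (A := C * ‖ee i‖ * max A 0)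
      (fun x => ?_) (fun x hx => ?_)
    · exact (measurable_fderiv_apply_const ℝ _ (ee i)).mul hcont.measurable
    · by_cases hx : x ∈ closedBall p R
      · rw [abs_mul]
        gcongr
        · refine ((fderiv ℝ (gg p r R i) x).le_opNorm (ee i)).trans ?_
          gcongr
          exact norm_fderiv_le_of_lipschitz ℝ hC
        · exact hA0 x hx
      · rw [mem_closedBall, dist_eq_norm, not_le] at hx
        rw [fderiv_gg_out p hr hrR i hx]
        simp only [zero_apply, zero_mul, abs_zero]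
        positivity
    · rw [mem_closedBall, dist_eq_norm, not_le] at hx
      rw [fderiv_gg_out p hr hrR i hx]
      simp
  have hψ' : ∀ x, ‖x - p‖ < r → fderiv ℝ ψ x = 0 := by
    intro x hx
    have : ψ =ᶠ[𝓝 x] fun _ => (0 : ℝ) := by
      filter_upwards [eventually_lt_norm hx] with y hy
      apply h0
      rw [mem_closedBall, dist_eq_norm]
      exact hy.le
    rw [this.fderiv_eq]; simp
  have e1 : ∫ x, ip (zz p r R) ψ x =
      ∫ x, (fderiv ℝ ψ x (ee 0) * gg p r R 0 x + fderiv ℝ ψ x (ee 1) * gg p r R 1 x) := by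
    refine integral_congr_ae ?_
    filter_upwards [ae_regions p r R] with x hx
    rw [ip_eq]
    rcases hx with hx | ⟨hx1, hx2⟩ | hx
    · simp [hψ' x hx]
    · rw [fderiv_zz_mid p hr hx1 hx2, fderiv_zz_mid p hr hx1 hx2, gg_mid p 0 hx1.le hx2.le,
        gg_mid p 1 hx1.le hx2.le]
      rw [inner_ee, inner_ee]
      ring
    · rw [fderiv_zz_out p hr hrR hx, gg_out p hr hrR 0 hx.le, gg_out p hr hrR 1 hx.le]
      simp
  rw [e1, integral_add (hI 0) (hI 1), integral_fderiv_mul hψ (isLip_gg p hr hrR 0)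
    (hasCompactSupport_gg p hr hrR 0), integral_fderiv_mul hψ (isLip_gg p hr hrR 1)
    (hasCompactSupport_gg p hr hrR 1), ← neg_add, ← integral_add (hJ 0) (hJ 1), ← integral_neg,
    ← integral_const_mul, ← integral_indicator measurableSet_ball]
  refine integral_congr_ae ?_
  filter_upwards [ae_regions p r R] with x hx
  have hmem : x ∈ ball p R ↔ ‖x - p‖ < R := by rw [mem_ball, dist_eq_norm]
  rcases hx with hx | ⟨hx1, hx2⟩ | hx
  · have hx0 : ψ x = 0 := h0 x (by rw [mem_closedBall, dist_eq_norm]; exact hx.le)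
    rw [indicator_of_mem (hmem.2 (hx.trans hrR)), hx0]
    simp
  · rw [indicator_of_mem (hmem.2 hx2), fderiv_gg_mid p hr 0 hx1 hx2, fderiv_gg_mid p hr 1 hx1 hx2]
    have hx0 : 0 < ‖x - p‖ := hr.trans hx1
    have h4 : ‖x - p‖ ^ 4 = ‖x - p‖ ^ 2 * ‖x - p‖ ^ 2 := by ring
    have hs := norm_sq_eq (x - p)
    have : -(2 * R ^ 2 * (co 0 (x - p)) ^ 2 / ‖x - p‖ ^ 4) + -(2 * R ^ 2 * (co 1 (x - p)) ^ 2 /
        ‖x - p‖ ^ 4) = -(2 * R ^ 2 / ‖x - p‖ ^ 2) := by
      have h5 : (co 1 (x - p)) ^ 2 = ‖x - p‖ ^ 2 - (co 0 (x - p)) ^ 2 := by linarith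
      rw [h5, h4]
      field_simp
      ring
    linear_combination (-(2 * bb r R * ψ x)) * this
  · rw [indicator_of_notMem (by rw [hmem]; exact not_lt.2 hx.le), fderiv_gg_out p hr hrR 0 hx,
      fderiv_gg_out p hr hrR 1 hx]
    simp

end Pool.Agent.H95.Perf
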