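import Pool.Agent.H95.Perf.Corrector

/-!
# Energy identities for perforated functions
-/

open MeasureTheory Set Metric Filter Topology
open scoped RealInnerProductSpace Gradient

namespace Pool.Agent.H95.Perf

variable {ι : Type*}

theorem ae_diff {f : E → ℝ} (hf : IsLip f) : ∀ᵐ x : E, DifferentiableAt ℝ f x := by
  obtain ⟨C, hC⟩ := hf
  exact hC.ae_differentiableAt

theorem ip_zz_of_lt (p : E) {r R : ℝ} (hr : 0 < r) (hrR : r < R) (f : E → ℝ) {x : E}
    (hx : R < ‖x - p‖) : ip (zz p r R) f x = 0 := by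
  rw [ip_eq, fderiv_zz_out p hr hrR hx]; simp

/-- `φ + ∑ mᵢ (1 - zᵢ)`. -/
noncomputable def lift (P : Finset ι) (c : ι → E) (r : ι → ℝ) (R : ℝ) (m : ι → ℝ) (φ : E → ℝ)
    (x : E) : ℝ := φ x + ∑ i ∈ P, m i * (1 - zz (c i) (r i) R x)

/-- `∑ mᵢ (1 - zᵢ)` -/
noncomputable def bump (P : Finset ι) (c : ι → E) (r : ι → ℝ) (R : ℝ) (m : ι → ℝ) (x : E) : ℝ :=
  ∑ i ∈ P, m i * (1 - zz (c i) (r i) R x)

section

variable {P : Finset ι} {c : ι → E} {r : ι → ℝ} {R : ℝ}
  (hr : ∀ i ∈ P, 0 < r i) (hrR : ∀ i ∈ P, r i < R)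
  (hdisj : ∀ i ∈ P, ∀ j ∈ P, i ≠ j → 2 * R < dist (c i) (c j))

include hr hrR in
theorem isLip_bump (m : ι → ℝ) : IsLip (bump P c r R m) :=
  IsLip.finset_sum P fun i hi =>
    ((IsLip.const 1).sub (isLip_zz (c i) (hr i hi) (hrR i hi))).const_mul _

include hdisj in
theorem far_of_near {i j : ι} (hi : i ∈ P) (hj : j ∈ P) (hij : i ≠ j) {x : E}
    (hx : ‖x - c i‖ ≤ R) : R < ‖x - c j‖ := by
  by_contra h
  rw [not_lt] at h
  have h1 := hdisj i hi j hj hij
  have h2 : dist (c i) (c j) ≤ dist (c i) x + dist x (c j) := dist_triangle _ _ _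
  rw [dist_comm (c i) x, dist_eq_norm x (c i), dist_eq_norm x (c j)] at h2
  linarith

include hr hrR hdisj in
theorem bump_of_near (m : ι → ℝ) {i : ι} (hi : i ∈ P) {x : E} (hx : ‖x - c i‖ ≤ R) :
    bump P c r R m x = m i * (1 - zz (c i) (r i) R x) := by
  rw [bump, Finset.sum_eq_single_of_mem i hi]
  intro j hj hji
  rw [zz_eq_one (c j) (hr j hj) (hrR j hj) (far_of_near hdisj hi hj hji.symm hx).le]
  ring

include hr hrR in
theorem bump_of_far (m : ι → ℝ) {x : E} (hx : ∀ i ∈ P, R ≤ ‖x - c i‖) :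
    bump P c r R m x = 0 := by
  rw [bump]
  refine Finset.sum_eq_zero fun i hi => ?_
  rw [zz_eq_one (c i) (hr i hi) (hrR i hi) (hx i hi)]
  ring

theorem gradient_bump (m : ι → ℝ) {x : E}
    (hx : ∀ i ∈ P, DifferentiableAt ℝ (zz (c i) (r i) R) x) :
    fderiv ℝ (bump P c r R m) x = - ∑ i ∈ P, m i • fderiv ℝ (zz (c i) (r i) R) x := by
  have h : HasFDerivAt (bump P c r R m)
      (∑ i ∈ P, m i • (0 - fderiv ℝ (zz (c i) (r i) R) x)) x := by
    refine HasFDerivAt.fun_sum fun i hi => ?_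
    exact ((hasFDerivAt_const (1 : ℝ) x).fun_sub (hx i hi).hasFDerivAt).const_mul (m i)
  rw [h.fderiv, ← Finset.sum_neg_distrib]
  refine Finset.sum_congr rfl fun i _ => ?_
  rw [zero_sub, smul_neg]

include hr hrR in
theorem ae_diff_zz : ∀ᵐ x : E, ∀ i ∈ P, DifferentiableAt ℝ (zz (c i) (r i) R) x := by
  have : ∀ i ∈ P, ∀ᵐ x : E, DifferentiableAt ℝ (zz (c i) (r i) R) x := fun i hi =>
    ae_diff (isLip_zz (c i) (hr i hi) (hrR i hi))
  exact (Finset.eventually_all P).2 this

theorem compactSupport_ip_right {f g : E → ℝ} (hf : IsLip f) (hg : IsLip g)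
    (hc : HasCompactSupport g) : Integrable (ip f g) := by
  have : ip f g = ip g f := funext fun x => ip_comm f g x
  rw [this]
  exact integrable_ip hg hf hc

include hr hrR in
theorem hasCompactSupport_bump (m : ι → ℝ) : HasCompactSupport (bump P c r R m) := by
  refine HasCompactSupport.intro (K := ⋃ i ∈ P, closedBall (c i) R)
    (P.isCompact_biUnion fun i _ => isCompact_closedBall _ _) fun x hx => ?_
  simp only [mem_iUnion, mem_closedBall, dist_eq_norm, not_exists, not_le] at hx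
  exact bump_of_far hr hrR m fun i hi => (hx i hi).le

/-- energy of a corrector -/
noncomputable def KK (p : E) (r R : ℝ) : ℝ := 4 * bb r R * ∫ x in ball p R, zz p r R x

theorem energy_zz (p : E) {r R : ℝ} (hr : 0 < r) (hrR : r < R) :
    ∫ x, ip (zz p r R) (zz p r R) x = KK p r R :=
  integral_ip_zz p hr hrR (isLip_zz p hr hrR) fun x hx =>
    zz_eq_zero p hr (by rwa [mem_closedBall, dist_eq_norm] at hx)

theorem integrable_ip_zz (p : E) {r R : ℝ} (hr : 0 < r) (hrR : r < R) {f : E → ℝ}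
    (hf : IsLip f) : Integrable (ip (zz p r R) f) := by
  obtain ⟨C, hC⟩ := isLip_zz p hr hrR
  obtain ⟨D, hD⟩ := hf
  refine integrable_of_bdd (measurable_ip _ f) (isCompact_closedBall p R) (A := C * D)
    (fun x => ?_) (fun x hx => ?_)
  · refine (abs_ip_le _ f x).trans ?_
    gcongr
    · exact norm_fderiv_le_of_lipschitz ℝ hC
    · exact norm_fderiv_le_of_lipschitz ℝ hD
  · rw [mem_closedBall, dist_eq_norm, not_le] at hx
    exact ip_zz_of_lt p hr hrR f hx

include hr hrR hdisj in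
/-- **Energy decomposition.** -/
theorem energy_lift {φ : E → ℝ} (hφ : IsLip φ) (hφc : HasCompactSupport φ)
    (h0 : ∀ i ∈ P, ∀ x ∈ closedBall (c i) (r i), φ x = 0) (m : ι → ℝ)
    (hm : ∀ i ∈ P, ∫ x in ball (c i) R, φ x = m i * ∫ x in ball (c i) R, zz (c i) (r i) R x) :
    ∫ x, ‖fderiv ℝ φ x‖ ^ 2 = (∫ x, ‖fderiv ℝ (lift P c r R m φ) x‖ ^ 2)
      + ∑ i ∈ P, m i ^ 2 * KK (c i) (r i) R := by
  classical
  have hI0 : Integrable (ip φ φ) := integrable_ip hφ hφ hφc
  have hI1 : ∀ i ∈ P, Integrable (fun x => m i * ip (zz (c i) (r i) R) φ x) := fun i hi =>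
    (integrable_ip_zz (c i) (hr i hi) (hrR i hi) hφ).const_mul _
  have hI2 : ∀ i ∈ P, Integrable (fun x => m i ^ 2 * ip (zz (c i) (r i) R) (zz (c i) (r i) R) x) :=
    fun i hi => (integrable_ip_zz (c i) (hr i hi) (hrR i hi)
      (isLip_zz (c i) (hr i hi) (hrR i hi))).const_mul _
  have key : ∫ x, ‖fderiv ℝ (lift P c r R m φ) x‖ ^ 2 =
      ∫ x, (ip φ φ x - 2 * ∑ i ∈ P, m i * ip (zz (c i) (r i) R) φ x
        + ∑ i ∈ P, m i ^ 2 * ip (zz (c i) (r i) R) (zz (c i) (r i) R) x) := by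
    refine integral_congr_ae ?_
    filter_upwards [ae_diff hφ, ae_diff_zz (c := c) hr hrR] with x hx1 hx2
    have e1 : fderiv ℝ (lift P c r R m φ) x =
        fderiv ℝ φ x - ∑ i ∈ P, m i • fderiv ℝ (zz (c i) (r i) R) x := by
      have hb : DifferentiableAt ℝ (bump P c r R m) x :=
        DifferentiableAt.fun_sum fun i hi => ((differentiableAt_const _).sub (hx2 i hi)).const_mul _
      have : lift P c r R m φ = fun x => φ x + bump P c r R m x := rfl
      rw [this, fderiv_fun_add hx1 hb, gradient_bump m hx2, sub_eq_add_neg]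
    have e2 : ∇ (lift P c r R m φ) x = ∇ φ x - ∑ i ∈ P, m i • ∇ (zz (c i) (r i) R) x := by
      apply (InnerProductSpace.toDual ℝ E).injective
      rw [toDual_gradient, e1, map_sub, map_sum, toDual_gradient]
      congr 1
      refine Finset.sum_congr rfl fun i _ => ?_
      rw [LinearIsometryEquiv.map_smulₛₗ, toDual_gradient]
      simp
    rw [← norm_gradient, ← real_inner_self_eq_norm_sq, e2, inner_sub_sub_self, inner_sum, sum_inner]
    have e3 : ∀ i ∈ P, ⟪∇ φ x, m i • ∇ (zz (c i) (r i) R) x⟫ = m i * ip (zz (c i) (r i) R) φ x := by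
      intro i _
      rw [inner_smul_right, ip, real_inner_comm]
    have e4 : ∀ i ∈ P, ⟪m i • ∇ (zz (c i) (r i) R) x, ∇ φ x⟫ = m i * ip (zz (c i) (r i) R) φ x := by
      intro i _
      rw [real_inner_smul_left, ip]
    rw [Finset.sum_congr rfl e3, Finset.sum_congr rfl e4]
    have e5 : ⟪∑ i ∈ P, m i • ∇ (zz (c i) (r i) R) x, ∑ i ∈ P, m i • ∇ (zz (c i) (r i) R) x⟫ =
        ∑ i ∈ P, m i ^ 2 * ip (zz (c i) (r i) R) (zz (c i) (r i) R) x := by
      rw [sum_inner]
      refine Finset.sum_congr rfl fun i hi => ?_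
      rw [inner_sum, Finset.sum_eq_single_of_mem i hi]
      · rw [real_inner_smul_left, inner_smul_right, ip]; ring
      · intro j hj hji
        rw [real_inner_smul_left, inner_smul_right]
        have : ⟪∇ (zz (c i) (r i) R) x, ∇ (zz (c j) (r j) R) x⟫ = 0 := by
          rcases le_or_gt ‖x - c i‖ R with h | h
          · have h' := far_of_near hdisj hi hj hji.symm h
            have := ip_zz_of_lt (c j) (hr j hj) (hrR j hj) (zz (c i) (r i) R) h'
            rwa [ip_comm] at this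
          · exact ip_zz_of_lt (c i) (hr i hi) (hrR i hi) (zz (c j) (r j) R) h
        rw [this]; ring
    rw [e5, ip]
    ring
  have hI1' : Integrable (fun x => 2 * ∑ i ∈ P, m i * ip (zz (c i) (r i) R) φ x) :=
    (integrable_finsetSum P hI1).const_mul 2
  have hI2' : Integrable (fun x => ∑ i ∈ P, m i ^ 2 *
      ip (zz (c i) (r i) R) (zz (c i) (r i) R) x) := integrable_finsetSum P hI2
  have hI3 : Integrable (fun x => ip φ φ x - 2 * ∑ i ∈ P, m i * ip (zz (c i) (r i) R) φ x) :=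
    hI0.sub hI1'
  rw [key, integral_add hI3 hI2', integral_sub hI0 hI1', integral_const_mul,
    integral_finsetSum P hI1, integral_finsetSum P hI2]
  have e6 : ∀ i ∈ P, ∫ x, m i * ip (zz (c i) (r i) R) φ x = m i ^ 2 * KK (c i) (r i) R := by
    intro i hi
    rw [integral_const_mul, integral_ip_zz (c i) (hr i hi) (hrR i hi) hφ (h0 i hi), hm i hi, KK]
    ring
  have e7 : ∀ i ∈ P, ∫ x, m i ^ 2 * ip (zz (c i) (r i) R) (zz (c i) (r i) R) x =
      m i ^ 2 * KK (c i) (r i) R := by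
    intro i hi
    rw [integral_const_mul, energy_zz (c i) (hr i hi) (hrR i hi)]
  rw [Finset.sum_congr rfl e6, Finset.sum_congr rfl e7]
  have e8 : ∫ x, ‖fderiv ℝ φ x‖ ^ 2 = ∫ x, ip φ φ x := by
    refine integral_congr_ae (Eventually.of_forall fun x => ?_)
    exact (ip_self φ x).symm
  rw [e8]
  ring

/-- the cut-off `1 - ∑ (1 - zᵢ)` -/
noncomputable def cut (P : Finset ι) (c : ι → E) (r : ι → ℝ) (R : ℝ) (x : E) : ℝ :=
  1 - bump P c r R (fun _ => 1) x

include hr hrR in
theorem isLip_cut : IsLip (cut P c r R) := (IsLip.const 1).sub (isLip_bump hr hrR _)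

include hr hrR hdisj in
theorem cut_of_near {i : ι} (hi : i ∈ P) {x : E} (hx : ‖x - c i‖ ≤ R) :
    cut P c r R x = zz (c i) (r i) R x := by
  rw [cut, bump_of_near hr hrR hdisj _ hi hx]
  ring

include hr hrR in
theorem cut_of_far {x : E} (hx : ∀ i ∈ P, R ≤ ‖x - c i‖) : cut P c r R x = 1 := by
  rw [cut, bump_of_far hr hrR _ hx]
  ring

include hr hrR hdisj in
theorem cut_mem (x : E) : 0 ≤ cut P c r R x ∧ cut P c r R x ≤ 1 := by
  by_cases h : ∃ i ∈ P, ‖x - c i‖ ≤ R
  · obtain ⟨i, hi, hx⟩ := h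
    rw [cut_of_near hr hrR hdisj hi hx]
    exact ⟨zz_nonneg _ (hr i hi) (hrR i hi) x, zz_le_one _ (hr i hi) (hrR i hi) x⟩
  · push Not at h
    rw [cut_of_far hr hrR fun i hi => (h i hi).le]
    exact ⟨zero_le_one, le_rfl⟩

include hr hrR hdisj in
theorem abs_cut_le (x : E) : |cut P c r R x| ≤ 1 := by
  obtain ⟨h1, h2⟩ := cut_mem (c := c) hr hrR hdisj x
  rw [abs_of_nonneg h1]; exact h2

theorem gradient_mul {f g : E → ℝ} {x : E} (hf : DifferentiableAt ℝ f x)
    (hg : DifferentiableAt ℝ g x) :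
    ∇ (fun y => f y * g y) x = f x • ∇ g x + g x • ∇ f x := by
  apply (InnerProductSpace.toDual ℝ E).injective
  rw [toDual_gradient, fderiv_fun_mul hf hg, map_add, LinearIsometryEquiv.map_smulₛₗ,
    LinearIsometryEquiv.map_smulₛₗ, toDual_gradient, toDual_gradient]
  simp

include hr hrR hdisj in
/-- **Energy of a function multiplied with the cut-off.** -/
theorem energy_cut_mul {φ : E → ℝ} (hφ : IsLip φ) (hφc : HasCompactSupport φ) :
    ∫ x, ‖fderiv ℝ (fun y => cut P c r R y * φ y) x‖ ^ 2 =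
      (∫ x, (cut P c r R x) ^ 2 * ‖fderiv ℝ φ x‖ ^ 2)
      + ∑ i ∈ P, 4 * bb (r i) R * ∫ x in ball (c i) R, cut P c r R x * φ x ^ 2 := by
  classical
  obtain ⟨A, hA0, hA⟩ := exists_bound hφ.continuous hφc
  have hζ := isLip_cut (c := c) hr hrR
  have hζφ : IsLip (fun x => cut P c r R x * φ x) := hζ.mul_bdd hφ (abs_cut_le hr hrR hdisj) hA
  have hζφA : ∀ x, |cut P c r R x * φ x| ≤ 1 * A := fun x => by
    rw [abs_mul]
    exact mul_le_mul (abs_cut_le hr hrR hdisj x) (hA x) (abs_nonneg _) zero_le_one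
  set ψ : E → ℝ := fun x => cut P c r R x * φ x ^ 2 with hψdef
  have hψ' : ψ = fun x => (cut P c r R x * φ x) * φ x := by
    funext x; simp only [hψdef]; ring
  have hψ : IsLip ψ := by rw [hψ']; exact hζφ.mul_bdd hφ hζφA hA
  have hψc : HasCompactSupport ψ := by
    rw [hψ']; exact hφc.mul_left
  have hψ0 : ∀ i ∈ P, ∀ x ∈ closedBall (c i) (r i), ψ x = 0 := by
    intro i hi x hx
    rw [mem_closedBall, dist_eq_norm] at hx
    simp only [hψdef]
    rw [cut_of_near hr hrR hdisj hi (hx.trans (hrR i hi).le), zz_eq_zero _ (hr i hi) hx, zero_mul]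
  have hI1 : ∀ i ∈ P, Integrable (ip (zz (c i) (r i) R) ψ) := fun i hi =>
    integrable_ip_zz (c i) (hr i hi) (hrR i hi) hψ
  have hI2 : Integrable (fun x => (cut P c r R x) ^ 2 * ‖fderiv ℝ φ x‖ ^ 2) := by
    obtain ⟨C, hC⟩ := hφ
    refine integrable_of_bdd ?_ hφc (A := 1 * (C : ℝ) ^ 2) (fun x => ?_) (fun x hx => ?_)
    · exact (hζ.continuous.measurable.pow_const 2).mul ((measurable_fderiv ℝ φ).norm.pow_const 2)
    · rw [abs_mul, abs_pow, abs_pow]
      gcongr
      · exact pow_le_one₀ (abs_nonneg _) (abs_cut_le hr hrR hdisj x)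
      · rw [abs_norm]; exact norm_fderiv_le_of_lipschitz ℝ hC
    · have : fderiv ℝ φ x = 0 := by
        by_contra h
        exact hx (support_fderiv_subset ℝ h)
      rw [this]; simp
  have key : ∫ x, ‖fderiv ℝ (fun y => cut P c r R y * φ y) x‖ ^ 2 =
      ∫ x, ((cut P c r R x) ^ 2 * ‖fderiv ℝ φ x‖ ^ 2 + ∑ i ∈ P, ip (zz (c i) (r i) R) ψ x) := by
    refine integral_congr_ae ?_
    filter_upwards [ae_diff hφ, ae_diff_zz (c := c) hr hrR, ae_diff hζφ] with x hx1 hx2 hx3
    have hb : DifferentiableAt ℝ (bump P c r R (fun _ => 1)) x :=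
      DifferentiableAt.fun_sum fun i hi => ((differentiableAt_const _).sub (hx2 i hi)).const_mul _
    have hcut : DifferentiableAt ℝ (cut P c r R) x := (differentiableAt_const _).sub hb
    have e1 : ∇ (cut P c r R) x = ∑ i ∈ P, ∇ (zz (c i) (r i) R) x := by
      apply (InnerProductSpace.toDual ℝ E).injective
      rw [toDual_gradient, map_sum]
      have : cut P c r R = fun x => 1 - bump P c r R (fun _ => 1) x := rfl
      rw [this, fderiv_const_sub, gradient_bump _ hx2, neg_neg]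
      refine Finset.sum_congr rfl fun i _ => ?_
      rw [toDual_gradient, one_smul]
    have e2 : ∑ i ∈ P, ip (zz (c i) (r i) R) ψ x = ⟪∇ (cut P c r R) x, ∇ ψ x⟫ := by
      rw [e1, sum_inner]
      rfl
    rw [e2, hψ', gradient_mul hx3 hx1, ← norm_gradient, ← norm_gradient,
      gradient_mul hcut hx1, ← real_inner_self_eq_norm_sq, ← real_inner_self_eq_norm_sq]
    simp only [inner_add_left, inner_add_right, real_inner_smul_left, inner_smul_right]
    rw [real_inner_comm (∇ φ x) (∇ (cut P c r R) x)]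
    ring
  rw [key, integral_add hI2 (integrable_finsetSum P hI1), integral_finsetSum P hI1]
  congr 1
  refine Finset.sum_congr rfl fun i hi => ?_
  exact integral_ip_zz (c i) (hr i hi) (hrR i hi) hψ (hψ0 i hi)

end

end Pool.Agent.H95.Perf
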