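import Pool.Agent.H95.Perf.Energy

/-!
# Estimates for the corrector
-/

open MeasureTheory Set Metric Filter Topology
open scoped RealInnerProductSpace Gradient

namespace Pool.Agent.H95.Perf

theorem volume_real_ball (p : E) {R : ℝ} (hR : 0 ≤ R) : volume.real (ball p R) = Real.pi * R ^ 2 := by
  rw [measureReal_def, Complex.volume_ball, ENNReal.toReal_mul, ENNReal.toReal_pow,
    ENNReal.toReal_ofReal hR]
  simp
  ring

theorem integrableOn_ball {f : E → ℝ} (hf : Continuous f) (p : E) (R : ℝ) :
    IntegrableOn f (ball p R) :=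
  (hf.continuousOn.integrableOn_compact (isCompact_closedBall p R)).mono_set ball_subset_closedBall

/-- `a = 2 b R²`. -/
noncomputable def aa (r R : ℝ) : ℝ := 2 * bb r R * R ^ 2

theorem aa_pos {r R : ℝ} (hr : 0 < r) (hrR : r < R) : 0 < aa r R := by
  have := bb_pos hr hrR
  have hR : 0 < R := hr.trans hrR
  unfold aa
  positivity

theorem aa_eq {r R : ℝ} (hr : 0 < r) (hrR : r < R) :
    aa r R * (Real.log (R / r) - (1 - (r / R) ^ 2) / 2) = 1 := by
  have hR : 0 < R := hr.trans hrR
  have hd := den_pos hr hrR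
  have : 2 * R ^ 2 * Real.log (R / r) - (R ^ 2 - r ^ 2) =
      2 * R ^ 2 * (Real.log (R / r) - (1 - (r / R) ^ 2) / 2) := by
    field_simp
  rw [aa, bb]
  calc 2 * (1 / (2 * R ^ 2 * Real.log (R / r) - (R ^ 2 - r ^ 2))) * R ^ 2 *
        (Real.log (R / r) - (1 - (r / R) ^ 2) / 2)
      = (2 * R ^ 2 * (Real.log (R / r) - (1 - (r / R) ^ 2) / 2)) /
        (2 * R ^ 2 * Real.log (R / r) - (R ^ 2 - r ^ 2)) := by ring
    _ = 1 := by rw [← this, div_self hd.ne']

theorem one_le_aa_mul {r R : ℝ} (hr : 0 < r) (hrR : r < R) : 1 ≤ aa r R * Real.log (R / r) := by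
  have hR : 0 < R := hr.trans hrR
  have h := aa_eq hr hrR
  have h1 := aa_pos hr hrR
  have h2 : (r / R) ^ 2 ≤ 1 := by
    apply pow_le_one₀ (by positivity)
    rw [div_le_one hR]; exact hrR.le
  nlinarith

theorem aa_mul_le {r R : ℝ} (hr : 0 < r) (hrR : r < R) :
    aa r R * (Real.log (R / r) - 1 / 2) ≤ 1 := by
  have h := aa_eq hr hrR
  have h1 := aa_pos hr hrR
  have h2 : 0 ≤ (r / R) ^ 2 := sq_nonneg _
  nlinarith

/-- mean of `1 - z` over the disc -/
theorem integral_one_sub_zz_le (p : E) {r R : ℝ} (hr : 0 < r) (hrR : r < R) (ha : aa r R ≤ 1) :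
    ∫ x in ball p R, (1 - zz p r R x) ≤ 3 * Real.sqrt (aa r R) * (Real.pi * R ^ 2) := by
  have hR : 0 < R := hr.trans hrR
  set a := aa r R with hadef
  have ha0 : 0 < a := aa_pos hr hrR
  -- pointwise bound
  have hpt : ∀ x ∈ ball p R, 1 - zz p r R x ≤
      (ball p (a * R)).indicator (fun _ => (1 : ℝ)) x + a * Real.log (1 / a) := by
    intro x hx
    rw [mem_ball, dist_eq_norm] at hx
    have hlog0 : 0 ≤ Real.log (1 / a) := Real.log_nonneg (by rw [one_le_div ha0]; exact ha)
    by_cases hxa : x ∈ ball p (a * R)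
    · rw [indicator_of_mem hxa]
      have := zz_nonneg p hr hrR x
      have : 0 ≤ a * Real.log (1 / a) := by positivity
      linarith [zz_nonneg p hr hrR x]
    · rw [indicator_of_notMem hxa, zero_add]
      rw [mem_ball, dist_eq_norm, not_lt] at hxa
      have hm := cl_mem p hrR x
      have hm2 : a * R ≤ cl p r R x := by
        refine le_trans ?_ (le_max_right _ _)
        exact le_min hxa (by nlinarith)
      have h1 := one_sub_Zf_le hr hrR hm.1 hm.2
      have h2 : Real.log (R / cl p r R x) ≤ Real.log (1 / a) := by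
        apply Real.log_le_log (div_pos hR (hr.trans_le hm.1))
        rw [div_le_div_iff₀ (hr.trans_le hm.1) ha0]
        nlinarith
      calc 1 - zz p r R x ≤ a * Real.log (R / cl p r R x) := h1
        _ ≤ a * Real.log (1 / a) := by gcongr
  have hI1 : IntegrableOn (fun x => 1 - zz p r R x) (ball p R) :=
    integrableOn_ball (continuous_const.sub (isLip_zz p hr hrR).continuous) p R
  have hI2 : IntegrableOn ((ball p (a * R)).indicator (fun _ => (1 : ℝ))) (ball p R) := by
    refine Integrable.indicator ?_ measurableSet_ball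
    exact integrableOn_const (measure_ball_lt_top.ne)
  have hI3 : IntegrableOn (fun _ : E => a * Real.log (1 / a)) (ball p R) :=
    integrableOn_const (measure_ball_lt_top.ne)
  have h3 : ∫ x in ball p R, (1 - zz p r R x) ≤
      ∫ x in ball p R, ((ball p (a * R)).indicator (fun _ => (1 : ℝ)) x + a * Real.log (1 / a)) :=
    setIntegral_mono_on hI1 (hI2.add hI3) measurableSet_ball hpt
  refine h3.trans ?_
  rw [integral_add hI2 hI3, setIntegral_const, smul_eq_mul, volume_real_ball p hR.le,
    setIntegral_indicator measurableSet_ball]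
  have h4 : ball p R ∩ ball p (a * R) = ball p (a * R) :=
    inter_eq_right.2 (ball_subset_ball (by nlinarith))
  rw [h4, setIntegral_const, smul_eq_mul, volume_real_ball p (by positivity), mul_one]
  have hs0 : 0 < Real.sqrt a := Real.sqrt_pos.2 ha0
  have hsa : Real.sqrt a * Real.sqrt a = a := Real.mul_self_sqrt ha0.le
  have hs1 : Real.sqrt a ≤ 1 := Real.sqrt_le_one.2 ha
  have hlog : a * Real.log (1 / a) ≤ 2 * Real.sqrt a := by
    have h5 : Real.log (1 / a) = 2 * Real.log (1 / Real.sqrt a) := by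
      rw [← hsa, one_div, one_div, Real.log_inv, Real.log_inv, Real.log_mul hs0.ne' hs0.ne', hsa]
      ring
    have h6 : Real.log (1 / Real.sqrt a) ≤ 1 / Real.sqrt a := by
      have := Real.log_le_sub_one_of_pos (x := 1 / Real.sqrt a) (by positivity)
      linarith
    rw [h5]
    calc a * (2 * Real.log (1 / Real.sqrt a)) ≤ a * (2 * (1 / Real.sqrt a)) := by gcongr
      _ = 2 * Real.sqrt a := by
        field_simp
        nlinarith
  have ha2 : a ^ 2 ≤ Real.sqrt a := by
    have : a ≤ Real.sqrt a := by nlinarith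
    nlinarith
  have hpi := Real.pi_pos
  calc Real.pi * (a * R) ^ 2 + Real.pi * R ^ 2 * (a * Real.log (1 / a))
      = (a ^ 2 + a * Real.log (1 / a)) * (Real.pi * R ^ 2) := by ring
    _ ≤ (Real.sqrt a + 2 * Real.sqrt a) * (Real.pi * R ^ 2) := by gcongr
    _ = _ := by ring

end Pool.Agent.H95.Perf
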