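import Pool.Agent.H95.Perf.Cells

/-!
# The perforation at one scale
-/

open MeasureTheory Set Metric Filter Topology
open scoped RealInnerProductSpace Gradient

namespace Pool.Agent.H95.Perf

open Pool.Agent.H41.Ev (cellOf osq)

/-- radius of the hole -/
noncomputable def rad (ε κ : ℝ) : ℝ := ε / 4 * Real.exp (-(2 * Real.pi / (κ * ε ^ 2)))

variable {ε κ₀ : ℝ}

theorem rad_pos (hε : 0 < ε) (κ₀ : ℝ) : 0 < rad ε κ₀ := by unfold rad; positivity

theorem log_rad (hε : 0 < ε) (κ₀ : ℝ) :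
    Real.log (ε / 4 / rad ε κ₀) = 2 * Real.pi / (κ₀ * ε ^ 2) := by
  have : ε / 4 / rad ε κ₀ = Real.exp (2 * Real.pi / (κ₀ * ε ^ 2)) := by
    rw [rad, Real.exp_neg]
    field_simp
  rw [this, Real.log_exp]

theorem rad_lt (hε : 0 < ε) (hκ : 0 < κ₀) : rad ε κ₀ < ε / 4 := by
  unfold rad
  have : Real.exp (-(2 * Real.pi / (κ₀ * ε ^ 2))) < 1 := by
    rw [Real.exp_lt_one_iff]
    have : 0 < 2 * Real.pi / (κ₀ * ε ^ 2) := by positivity
    linarith
  have h4 : 0 < ε / 4 := by positivity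
  nlinarith

theorem two_rad_lt (hε : 0 < ε) (hκ : 0 < κ₀) (hx : κ₀ * ε ^ 2 ≤ 1) : 2 * rad ε κ₀ < ε / 4 := by
  unfold rad
  have h1 : 1 ≤ 2 * Real.pi / (κ₀ * ε ^ 2) := by
    rw [one_le_div (by positivity)]
    linarith [Real.pi_gt_three]
  have h2 : Real.exp (-(2 * Real.pi / (κ₀ * ε ^ 2))) ≤ Real.exp (-1) :=
    Real.exp_le_exp.2 (by linarith)
  have h3 : Real.exp (-1) < 1 / 2 := by
    rw [Real.exp_neg, inv_lt_comm₀ (Real.exp_pos 1) (by norm_num)]
    have := Real.exp_one_gt_d9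
    norm_num
    linarith
  have h4 : 0 < ε / 4 := by positivity
  nlinarith

/-- lower bound for `2 π a` -/
theorem le_aa_rad (hε : 0 < ε) (hκ : 0 < κ₀) :
    κ₀ * ε ^ 2 ≤ 2 * Real.pi * aa (rad ε κ₀) (ε / 4) := by
  have h := one_le_aa_mul (rad_pos hε κ₀) (rad_lt hε hκ)
  rw [log_rad hε] at h
  have hx : 0 < κ₀ * ε ^ 2 := by positivity
  rw [mul_div_assoc', one_le_div hx] at h
  linarith

/-- upper bound for `a` -/
theorem aa_rad_le (hε : 0 < ε) (hκ : 0 < κ₀) (hx : κ₀ * ε ^ 2 ≤ 1) :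
    aa (rad ε κ₀) (ε / 4) ≤ κ₀ * ε ^ 2 := by
  have h := aa_mul_le (rad_pos hε κ₀) (rad_lt hε hκ)
  have ha := aa_pos (rad_pos hε κ₀) (rad_lt hε hκ)
  rw [log_rad hε] at h
  have hx0 : 0 < κ₀ * ε ^ 2 := by positivity
  set x := κ₀ * ε ^ 2
  set a := aa (rad ε κ₀) (ε / 4)
  have hy : 1 ≤ 1 / x := by rw [le_div_iff₀ hx0]; linarith
  have hpi := Real.pi_gt_three
  have h2 : 1 / x ≤ 2 * Real.pi / x - 1 / 2 := by
    have e : 2 * Real.pi / x = 2 * Real.pi * (1 / x) := by ring
    rw [e]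
    nlinarith
  have h3 : a * (1 / x) ≤ 1 := (mul_le_mul_of_nonneg_left h2 ha.le).trans h
  rw [mul_one_div, div_le_one hx0] at h3
  exact h3

/-- bounds for the doubled radius -/
theorem aa_two_rad (hε : 0 < ε) (hκ : 0 < κ₀) (hx : κ₀ * ε ^ 2 ≤ 1) :
    aa (2 * rad ε κ₀) (ε / 4) ≤ κ₀ * ε ^ 2 ∧
    2 * Real.pi * aa (2 * rad ε κ₀) (ε / 4) ≤ κ₀ * ε ^ 2 * (1 + κ₀ * ε ^ 2) := by
  have hr : 0 < 2 * rad ε κ₀ := by have := rad_pos hε κ₀; positivity
  have h := aa_mul_le hr (two_rad_lt hε hκ hx)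
  have ha := aa_pos hr (two_rad_lt hε hκ hx)
  have hlog : Real.log (ε / 4 / (2 * rad ε κ₀)) = 2 * Real.pi / (κ₀ * ε ^ 2) - Real.log 2 := by
    have hr0 := rad_pos hε κ₀
    have : ε / 4 / (2 * rad ε κ₀) = ε / 4 / rad ε κ₀ / 2 := by field_simp
    rw [this, Real.log_div (by positivity) two_ne_zero, log_rad hε]
  rw [hlog] at h
  have hx0 : 0 < κ₀ * ε ^ 2 := by positivity
  set x := κ₀ * ε ^ 2
  set a := aa (2 * rad ε κ₀) (ε / 4)
  have hl2 := Real.log_two_lt_d9
  have hpi := Real.pi_gt_three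
  have hy : 1 ≤ 1 / x := by rw [le_div_iff₀ hx0]; linarith
  have e : 2 * Real.pi / x = 2 * Real.pi * (1 / x) := by ring
  rw [e] at h
  constructor
  · have h2 : 1 / x ≤ 2 * Real.pi * (1 / x) - Real.log 2 - 1 / 2 := by nlinarith
    have h3 : a * (1 / x) ≤ 1 := (mul_le_mul_of_nonneg_left h2 ha.le).trans h
    rw [mul_one_div, div_le_one hx0] at h3
    exact h3
  · have h2 : 2 * Real.pi * (1 / x) - 6 / 5 ≤ 2 * Real.pi * (1 / x) - Real.log 2 - 1 / 2 := by
      linarith
    have h3 : a * (2 * Real.pi * (1 / x) - 6 / 5) ≤ 1 :=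
      (mul_le_mul_of_nonneg_left h2 ha.le).trans h
    have h4 : a * (2 * Real.pi - 6 / 5 * x) ≤ x := by
      have := mul_le_mul_of_nonneg_right h3 hx0.le
      calc a * (2 * Real.pi - 6 / 5 * x) = a * (2 * Real.pi * (1 / x) - 6 / 5) * x := by
            field_simp
        _ ≤ 1 * x := this
        _ = x := one_mul x
    -- multiply by (1+x)
    have h5 : 2 * Real.pi * a ≤ a * (2 * Real.pi - 6 / 5 * x) * (1 + x) := by
      have : 0 ≤ a * (2 * Real.pi * x - 6 / 5 * x - 6 / 5 * x ^ 2) := by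
        apply mul_nonneg ha.le
        nlinarith
      nlinarith
    calc 2 * Real.pi * a ≤ a * (2 * Real.pi - 6 / 5 * x) * (1 + x) := h5
      _ ≤ x * (1 + x) := by gcongr

/-! ### notation for the perforation -/

/-- all inner radii -/
noncomputable def rr (ε : ℝ) (κ : ℤ × ℤ → ℝ) (a : ℤ × ℤ) : ℝ := rad ε (κ a)

section

variable {P : Finset (ℤ × ℤ)} {κ : ℤ × ℤ → ℝ} {w : ℝ}

theorem isCompact_closure_cell (ε : ℝ) (a : ℤ × ℤ) : IsCompact (closure (cell ε a)) := by
  refine Metric.isCompact_of_isClosed_isBounded isClosed_closure ?_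
  refine Bornology.IsBounded.closure ?_
  rw [Metric.isBounded_iff]
  exact ⟨2 * ε, fun x hx y hy => dist_le_of_mem_cell hx hy⟩

theorem integrableOn_cell {g : ℂ → ℝ} (hg : Continuous g) (ε : ℝ) (a : ℤ × ℤ) :
    IntegrableOn g (cell ε a) :=
  (hg.continuousOn.integrableOn_compact (isCompact_closure_cell ε a)).mono_set subset_closure

theorem integral_zz (p : ℂ) (r R : ℝ) (hr : 0 < r) (hrR : r < R) :
    ∫ x in ball p R, zz p r R x = Real.pi * R ^ 2 - ∫ x in ball p R, (1 - zz p r R x) := by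
  have h1 : IntegrableOn (zz p r R) (ball p R) :=
    integrableOn_ball (isLip_zz p hr hrR).continuous p R
  have h2 : IntegrableOn (fun _ : ℂ => (1 : ℝ)) (ball p R) :=
    integrableOn_ball continuous_const p R
  rw [integral_sub h2 h1, setIntegral_const, smul_eq_mul, volume_real_ball p (hr.trans hrR).le]
  ring

theorem mean_one_sub_le (hε : 0 < ε) (hκ : 0 < κ₀) (hw : 0 < w) (hw1 : w ≤ 1)
    (hx : κ₀ * ε ^ 2 ≤ w ^ 4) (p : ℂ) :
    ∫ x in ball p (ε / 4), (1 - zz p (rad ε κ₀) (ε / 4) x) ≤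
      3 * w ^ 2 * (Real.pi * (ε / 4) ^ 2) := by
  have hw4 : w ^ 4 ≤ 1 := pow_le_one₀ hw.le hw1
  have ha := aa_rad_le hε hκ (hx.trans hw4)
  refine (integral_one_sub_zz_le p (rad_pos hε κ₀) (rad_lt hε hκ) (ha.trans (hx.trans hw4))).trans
    ?_
  have hs : Real.sqrt (aa (rad ε κ₀) (ε / 4)) ≤ w ^ 2 := by
    rw [show w ^ 2 = Real.sqrt (w ^ 4) by
      rw [show w ^ 4 = (w ^ 2) ^ 2 by ring, Real.sqrt_sq (by positivity)]]
    exact Real.sqrt_le_sqrt (ha.trans hx)
  gcongr

theorem mean_one_sub_le' (hε : 0 < ε) (hκ : 0 < κ₀) (hw : 0 < w) (hw1 : w ≤ 1)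
    (hx : κ₀ * ε ^ 2 ≤ w ^ 4) (p : ℂ) :
    ∫ x in ball p (ε / 4), (1 - zz p (2 * rad ε κ₀) (ε / 4) x) ≤
      3 * w ^ 2 * (Real.pi * (ε / 4) ^ 2) := by
  have hw4 : w ^ 4 ≤ 1 := pow_le_one₀ hw.le hw1
  have ha := (aa_two_rad hε hκ (hx.trans hw4)).1
  have hr : 0 < 2 * rad ε κ₀ := by have := rad_pos hε κ₀; positivity
  refine (integral_one_sub_zz_le p hr (two_rad_lt hε hκ (hx.trans hw4))
    (ha.trans (hx.trans hw4))).trans ?_
  have hs : Real.sqrt (aa (2 * rad ε κ₀) (ε / 4)) ≤ w ^ 2 := by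
    rw [show w ^ 2 = Real.sqrt (w ^ 4) by
      rw [show w ^ 4 = (w ^ 2) ^ 2 by ring, Real.sqrt_sq (by positivity)]]
    exact Real.sqrt_le_sqrt (ha.trans hx)
  gcongr

theorem hasCompactSupport_sq {f : ℂ → ℝ} (hf : HasCompactSupport f) :
    HasCompactSupport (fun z => f z ^ 2) := by
  have : (fun z => f z ^ 2) = fun z => f z * f z := by funext z; ring
  rw [this]
  exact hf.mul_left

theorem integrable_sq {f : ℂ → ℝ} (hf : Continuous f) (hc : HasCompactSupport f) :
    Integrable (fun z => f z ^ 2) :=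
  (hf.pow 2).integrable_of_hasCompactSupport (hasCompactSupport_sq hc)

/-- Part (a) at one scale. -/
theorem one_scale_a (hε : 0 < ε) (hκpos : ∀ a ∈ P, 0 < κ a) (hκ0 : ∀ a, a ∉ P → κ a = 0)
    (hw : 0 < w) (hw1 : w ≤ 1 / 100) (hκw : ∀ a ∈ P, κ a * ε ^ 2 ≤ w ^ 4) {U : Set ℂ}
    (hU : ∀ a ∈ P, closedBall (ctr ε a) (ε / 4) ⊆ U) {Λ : ℝ} (hΛ0 : 0 ≤ Λ)
    (hΛ : ∀ f : ℂ → ℝ, IsLip f → HasCompactSupport f → tsupport f ⊆ U →
      Λ * ∫ z, f z ^ 2 ≤ (∫ z, ‖fderiv ℝ f z‖ ^ 2) + ∫ z, κ (cellOf ε z) * f z ^ 2)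
    {φ : ℂ → ℝ} (hφ : IsLip φ) (hφc : HasCompactSupport φ) (hφU : tsupport φ ⊆ U)
    (hφ0 : ∀ a ∈ P, ∀ x ∈ closedBall (ctr ε a) (rad ε (κ a)), φ x = 0) :
    (1 - 29 * w) * (Λ * ∫ z, φ z ^ 2) ≤ ∫ z, ‖fderiv ℝ φ z‖ ^ 2 := by
  classical
  have hw1' : w ≤ 1 := by linarith
  have hw4 : w ^ 4 ≤ 1 := pow_le_one₀ hw.le hw1'
  set R := ε / 4 with hRdef
  have hR : 0 < R := by positivity
  set c := ctr ε with hcdef
  set r := rr ε κ with hrdef
  have hr : ∀ a ∈ P, 0 < r a := fun a _ => rad_pos hε _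
  have hrR : ∀ a ∈ P, r a < R := fun a ha => rad_lt hε (hκpos a ha)
  have hdisj : ∀ a ∈ P, ∀ b ∈ P, a ≠ b → 2 * R < dist (c a) (c b) :=
    fun a _ b _ hab => dist_ctr hε hab
  set W := Real.pi * R ^ 2 with hWdef
  have hW : 0 < W := by positivity
  -- integral of z
  set I : ℤ × ℤ → ℝ := fun a => ∫ x in ball (c a) R, zz (c a) (r a) R x with hIdef
  have hτ : ∀ a ∈ P, ∫ x in ball (c a) R, (1 - zz (c a) (r a) R x) ≤ 3 * w ^ 2 * W :=
    fun a ha => mean_one_sub_le hε (hκpos a ha) hw hw1' (hκw a ha) (c a)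
  have hI : ∀ a ∈ P, I a = W - ∫ x in ball (c a) R, (1 - zz (c a) (r a) R x) :=
    fun a ha => integral_zz (c a) (r a) R (hr a ha) (hrR a ha)
  have hI2 : ∀ a ∈ P, (1 - 3 * w ^ 2) * W ≤ I a := fun a ha => by
    rw [hI a ha]; linarith [hτ a ha]
  have h3w : 0 < 1 - 3 * w ^ 2 := by nlinarith
  have hIpos : ∀ a ∈ P, 0 < I a := fun a ha => lt_of_lt_of_le (by positivity) (hI2 a ha)
  set m : ℤ × ℤ → ℝ := fun a => (∫ x in ball (c a) R, φ x) / I a with hmdef
  have hm : ∀ a ∈ P, ∫ x in ball (c a) R, φ x = m a * ∫ x in ball (c a) R, zz (c a) (r a) R x := by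
    intro a ha
    have := (hIpos a ha).ne'
    simp only [hmdef]
    rw [div_mul_cancel₀ _ this]
  have hφ0' : ∀ a ∈ P, ∀ x ∈ closedBall (c a) (r a), φ x = 0 := hφ0
  set φt := lift P c r R m φ with hφtdef
  have hbL : IsLip (bump P c r R m) := isLip_bump hr hrR m
  have hbc : HasCompactSupport (bump P c r R m) := hasCompactSupport_bump hr hrR m
  have hφtL : IsLip φt := hφ.add hbL
  have hφtc : HasCompactSupport φt := hφc.add hbc
  have hφtU : tsupport φt ⊆ U := by
    have h1 : tsupport (bump P c r R m) ⊆ ⋃ a ∈ P, closedBall (c a) R := by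
      refine closure_minimal ?_ (P.isCompact_biUnion fun i _ =>
        isCompact_closedBall _ _).isClosed
      intro x hx
      by_contra h
      simp only [mem_iUnion, mem_closedBall, dist_eq_norm, not_exists, not_le] at h
      exact hx (bump_of_far hr hrR m fun i hi => (h i hi).le)
    refine (tsupport_add φ (bump P c r R m)).trans ?_
    refine union_subset hφU (h1.trans ?_)
    exact iUnion₂_subset fun a ha => hU a ha
  -- the mean of φt
  have hφtm : ∀ a ∈ P, ∫ x in ball (c a) R, φt x = m a * W := by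
    intro a ha
    have e1 : ∫ x in ball (c a) R, φt x =
        ∫ x in ball (c a) R, (φ x + m a * (1 - zz (c a) (r a) R x)) := by
      refine setIntegral_congr_fun measurableSet_ball fun x hx => ?_
      rw [mem_ball, dist_eq_norm] at hx
      have : φt x = φ x + bump P c r R m x := rfl
      rw [this, bump_of_near hr hrR hdisj m ha hx.le]
    have i1 : IntegrableOn φ (ball (c a) R) := integrableOn_ball hφ.continuous _ _
    have i2 : IntegrableOn (fun x => m a * (1 - zz (c a) (r a) R x)) (ball (c a) R) :=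
      integrableOn_ball (continuous_const.mul (continuous_const.sub
        (isLip_zz (c a) (hr a ha) (hrR a ha)).continuous)) _ _
    rw [e1, integral_add i1 i2, integral_const_mul, hm a ha]
    have := hI a ha
    simp only [hIdef] at this
    rw [this]
    ring
  -- quantities
  set A := ∫ z, ‖fderiv ℝ φ z‖ ^ 2 with hA
  set At := ∫ z, ‖fderiv ℝ φt z‖ ^ 2 with hAt
  set N := ∫ z, φ z ^ 2 with hN
  set Nt := ∫ z, φt z ^ 2 with hNt
  set Vt := ∫ z, κ (cellOf ε z) * φt z ^ 2 with hVt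
  set M := ∑ a ∈ P, κ a * ε ^ 2 * m a ^ 2 with hM
  have hAt0 : 0 ≤ At := integral_nonneg fun z => sq_nonneg _
  have hNt0 : 0 ≤ Nt := integral_nonneg fun z => sq_nonneg _
  have hN0 : 0 ≤ N := integral_nonneg fun z => sq_nonneg _
  have hM0 : 0 ≤ M := Finset.sum_nonneg fun a ha => by have := hκpos a ha; positivity
  have hVt0 : 0 ≤ Vt := integral_nonneg fun z => by
    have : 0 ≤ κ (cellOf ε z) := by
      by_cases h : cellOf ε z ∈ P
      · exact (hκpos _ h).le
      · rw [hκ0 _ h]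
    positivity
  have hintD : Integrable (fun z => ‖fderiv ℝ φt z‖ ^ 2) := by
    have := integrable_ip hφtL hφtL hφtc
    refine this.congr (Eventually.of_forall fun x => ip_self φt x)
  have hintN : Integrable (fun z => φt z ^ 2) := integrable_sq hφtL.continuous hφtc
  -- step 1
  have s1 : A = At + ∑ a ∈ P, m a ^ 2 * KK (c a) (r a) R :=
    energy_lift hr hrR hdisj hφ hφc hφ0' m hm
  have s2 : (1 - 3 * w ^ 2) * M ≤ ∑ a ∈ P, m a ^ 2 * KK (c a) (r a) R := by
    rw [hM, Finset.mul_sum]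
    refine Finset.sum_le_sum fun a ha => ?_
    have h1 : κ a * ε ^ 2 ≤ 2 * Real.pi * aa (r a) R := le_aa_rad hε (hκpos a ha)
    have h2 : (1 - 3 * w ^ 2) * (κ a * ε ^ 2) ≤ KK (c a) (r a) R := by
      have hb := bb_pos (hr a ha) (hrR a ha)
      calc (1 - 3 * w ^ 2) * (κ a * ε ^ 2) ≤ (1 - 3 * w ^ 2) * (2 * Real.pi * aa (r a) R) := by
            gcongr
        _ = 4 * bb (r a) R * ((1 - 3 * w ^ 2) * W) := by rw [aa, hWdef]; ring
        _ ≤ 4 * bb (r a) R * I a := by
            have := hI2 a ha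
            gcongr
        _ = KK (c a) (r a) R := rfl
    have h3 : 0 ≤ m a ^ 2 := sq_nonneg _
    nlinarith
  -- step 3: Poincaré
  have s3 : Vt ≤ (1 + w ^ 2) * M + 22 * w ^ 2 * At := by
    have e : Vt = ∑ a ∈ P, κ a * ∫ z in cell ε a, φt z ^ 2 :=
      integral_step hε P hκ0 (f := fun z => φt z ^ 2)
        (fun a _ => integrableOn_cell (hφtL.continuous.pow 2) ε a)
    have hcell : ∀ a ∈ P, ∫ z in cell ε a, φt z ^ 2 ≤ (1 + w ^ 2) * (ε ^ 2 * m a ^ 2) +
        (1 + 1 / w ^ 2) * (11 * ε ^ 2 * ∫ z in cell ε a, ‖fderiv ℝ φt z‖ ^ 2) := by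
      intro a ha
      have hp := cell_poincare hε a hφtL (m := m a) (hφtm a ha)
      have hpt : ∀ z, φt z ^ 2 ≤ (1 + w ^ 2) * m a ^ 2 + (1 + 1 / w ^ 2) * (φt z - m a) ^ 2 := by
        intro z
        have h1 : 0 ≤ (w * m a - (φt z - m a) / w) ^ 2 := sq_nonneg _
        have h2 : (w * m a - (φt z - m a) / w) ^ 2 = w ^ 2 * m a ^ 2 -
            2 * m a * (φt z - m a) + 1 / w ^ 2 * (φt z - m a) ^ 2 := by
          field_simp
          ring
        have h3 : φt z ^ 2 = m a ^ 2 + 2 * m a * (φt z - m a) + (φt z - m a) ^ 2 := by ring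
        rw [h3]
        rw [h2] at h1
        linarith
      have i1 : IntegrableOn (fun z => φt z ^ 2) (cell ε a) :=
        integrableOn_cell (hφtL.continuous.pow 2) ε a
      have i2 : IntegrableOn (fun z => (1 + 1 / w ^ 2) * (φt z - m a) ^ 2) (cell ε a) :=
        integrableOn_cell (continuous_const.mul ((hφtL.continuous.sub continuous_const).pow 2)) ε a
      have i3 : IntegrableOn (fun _ : ℂ => (1 + w ^ 2) * m a ^ 2) (cell ε a) :=
        integrableOn_cell continuous_const ε a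
      calc ∫ z in cell ε a, φt z ^ 2
          ≤ ∫ z in cell ε a, ((1 + w ^ 2) * m a ^ 2 + (1 + 1 / w ^ 2) * (φt z - m a) ^ 2) :=
            setIntegral_mono i1 (i3.add i2) hpt
        _ = (1 + w ^ 2) * (ε ^ 2 * m a ^ 2) +
            (1 + 1 / w ^ 2) * ∫ z in cell ε a, (φt z - m a) ^ 2 := by
            rw [integral_add i3 i2, setIntegral_const, integral_const_mul, smul_eq_mul,
              volume_real_cell hε]
            ring
        _ ≤ _ := by gcongr
    rw [e]
    calc ∑ a ∈ P, κ a * ∫ z in cell ε a, φt z ^ 2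
        ≤ ∑ a ∈ P, ((1 + w ^ 2) * (κ a * ε ^ 2 * m a ^ 2) +
            22 * w ^ 2 * ∫ z in cell ε a, ‖fderiv ℝ φt z‖ ^ 2) := by
          refine Finset.sum_le_sum fun a ha => ?_
          have h1 := hcell a ha
          have hκa := hκpos a ha
          have hD : 0 ≤ ∫ z in cell ε a, ‖fderiv ℝ φt z‖ ^ 2 := integral_nonneg fun z => sq_nonneg _
          calc κ a * ∫ z in cell ε a, φt z ^ 2 ≤ κ a * ((1 + w ^ 2) * (ε ^ 2 * m a ^ 2) +
                (1 + 1 / w ^ 2) * (11 * ε ^ 2 * ∫ z in cell ε a, ‖fderiv ℝ φt z‖ ^ 2)) := by gcongr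
            _ = (1 + w ^ 2) * (κ a * ε ^ 2 * m a ^ 2) + ((1 + 1 / w ^ 2) * 11 * (κ a * ε ^ 2)) *
                ∫ z in cell ε a, ‖fderiv ℝ φt z‖ ^ 2 := by ring
            _ ≤ (1 + w ^ 2) * (κ a * ε ^ 2 * m a ^ 2) + (22 * w ^ 2) *
                ∫ z in cell ε a, ‖fderiv ℝ φt z‖ ^ 2 := by
                have h2 : (1 + 1 / w ^ 2) * 11 * (κ a * ε ^ 2) ≤ 22 * w ^ 2 := by
                  calc (1 + 1 / w ^ 2) * 11 * (κ a * ε ^ 2) ≤ (1 + 1 / w ^ 2) * 11 * w ^ 4 := by
                        have := hκw a ha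
                        gcongr
                    _ = 11 * w ^ 4 + 11 * w ^ 2 := by field_simp
                    _ ≤ 22 * w ^ 2 := by
                        have : w ^ 4 ≤ w ^ 2 := by
                          apply pow_le_pow_of_le_one hw.le hw1' (by norm_num)
                        linarith
                gcongr
      _ = (1 + w ^ 2) * M + 22 * w ^ 2 * ∑ a ∈ P, ∫ z in cell ε a, ‖fderiv ℝ φt z‖ ^ 2 := by
          rw [Finset.sum_add_distrib, ← Finset.mul_sum, ← Finset.mul_sum]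
      _ ≤ (1 + w ^ 2) * M + 22 * w ^ 2 * At := by
          have := sum_cell_le hε P hintD (fun z => sq_nonneg _)
          gcongr
  -- step 4: bump is small in L²
  have s4 : ∫ z, (bump P c r R m z) ^ 2 ≤ 3 * w ^ 2 * Nt := by
    have hpt : ∀ z, (bump P c r R m z) ^ 2 =
        ∑ a ∈ P, (ball (c a) R).indicator (fun z => (m a * (1 - zz (c a) (r a) R z)) ^ 2) z := by
      intro z
      by_cases h : ∃ a ∈ P, ‖z - c a‖ < R
      · obtain ⟨a, ha, hz⟩ := h
        rw [bump_of_near hr hrR hdisj m ha hz.le, Finset.sum_eq_single_of_mem a ha]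
        · rw [indicator_of_mem (by rwa [mem_ball, dist_eq_norm])]
        · intro b hb hba
          rw [indicator_of_notMem]
          rw [mem_ball, dist_eq_norm, not_lt]
          exact (far_of_near hdisj ha hb hba.symm hz.le).le
      · push Not at h
        rw [bump_of_far hr hrR m h, Finset.sum_eq_zero]
        · ring
        · intro b hb
          rw [indicator_of_notMem]
          rw [mem_ball, dist_eq_norm, not_lt]
          exact h b hb
    have hic : ∀ a ∈ P, IntegrableOn (fun z => (m a * (1 - zz (c a) (r a) R z)) ^ 2)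
        (ball (c a) R) := fun a ha => integrableOn_ball ((continuous_const.mul
          (continuous_const.sub (isLip_zz (c a) (hr a ha) (hrR a ha)).continuous)).pow 2) _ _
    simp_rw [hpt]
    rw [integral_finsetSum P (fun a ha => (integrable_indicator_iff measurableSet_ball).2
      (hic a ha))]
    calc ∑ a ∈ P, ∫ z, (ball (c a) R).indicator (fun z => (m a * (1 - zz (c a) (r a) R z)) ^ 2) z
        ≤ ∑ a ∈ P, 3 * w ^ 2 * ∫ z in cell ε a, φt z ^ 2 := by
          refine Finset.sum_le_sum fun a ha => ?_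
          rw [integral_indicator measurableSet_ball]
          have i1 : IntegrableOn (fun z => m a ^ 2 * (1 - zz (c a) (r a) R z)) (ball (c a) R) :=
            integrableOn_ball (continuous_const.mul
              (continuous_const.sub (isLip_zz (c a) (hr a ha) (hrR a ha)).continuous)) _ _
          have h1 : ∫ z in ball (c a) R, (m a * (1 - zz (c a) (r a) R z)) ^ 2 ≤
              ∫ z in ball (c a) R, m a ^ 2 * (1 - zz (c a) (r a) R z) := by
            refine setIntegral_mono (hic a ha) i1 fun z => ?_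
            have z0 := zz_nonneg (c a) (hr a ha) (hrR a ha) z
            have z1 := zz_le_one (c a) (hr a ha) (hrR a ha) z
            have : (m a * (1 - zz (c a) (r a) R z)) ^ 2 =
              m a ^ 2 * (1 - zz (c a) (r a) R z) * (1 - zz (c a) (r a) R z) := by ring
            simp only
            rw [this]
            have h0 : 0 ≤ m a ^ 2 * (1 - zz (c a) (r a) R z) :=
              mul_nonneg (sq_nonneg _) (by linarith)
            nlinarith
          rw [integral_const_mul] at h1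
          have h2 := hτ a ha
          have hm2 : m a ^ 2 * W ≤ ∫ z in cell ε a, φt z ^ 2 := by
            have : IsFiniteMeasure (volume.restrict (ball (c a) R)) := ⟨by
              rw [Measure.restrict_apply_univ]; exact measure_ball_lt_top⟩
            have hcs := sq_integral_le (μ := volume.restrict (ball (c a) R)) (g := φt)
              (integrableOn_ball hφtL.continuous _ _)
              (integrableOn_ball (hφtL.continuous.pow 2) _ _)
            rw [hφtm a ha, measureReal_restrict_apply_univ, volume_real_ball _ hR.le] at hcs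
            have e : (m a * W) ^ 2 = W * (m a ^ 2 * W) := by ring
            rw [e] at hcs
            refine (le_of_mul_le_mul_left hcs hW).trans ?_
            exact setIntegral_mono_set (integrableOn_cell (hφtL.continuous.pow 2) ε a)
              (Eventually.of_forall fun z => sq_nonneg _)
              (Eventually.of_forall (ball_subset_cell hε a))
          calc ∫ z in ball (c a) R, (m a * (1 - zz (c a) (r a) R z)) ^ 2
              ≤ m a ^ 2 * ∫ z in ball (c a) R, (1 - zz (c a) (r a) R z) := h1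
            _ ≤ m a ^ 2 * (3 * w ^ 2 * W) := by gcongr
            _ = 3 * w ^ 2 * (m a ^ 2 * W) := by ring
            _ ≤ 3 * w ^ 2 * ∫ z in cell ε a, φt z ^ 2 := by gcongr
      _ = 3 * w ^ 2 * ∑ a ∈ P, ∫ z in cell ε a, φt z ^ 2 := by rw [← Finset.mul_sum]
      _ ≤ 3 * w ^ 2 * Nt := by
          have := sum_cell_le hε P hintN (fun z => sq_nonneg _)
          gcongr
  -- step 5
  have s5 : N ≤ (1 + 7 * w) * Nt := by
    have hbI : Integrable (fun z => (bump P c r R m z) ^ 2) := integrable_sq hbL.continuous hbc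
    have hφI : Integrable (fun z => φ z ^ 2) := integrable_sq hφ.continuous hφc
    have hpt : ∀ z, φ z ^ 2 ≤ (1 + w) * φt z ^ 2 + (1 + 1 / w) * (bump P c r R m z) ^ 2 := by
      intro z
      have e : φ z = φt z - bump P c r R m z := by
        have : φt z = φ z + bump P c r R m z := rfl
        rw [this]; ring
      set b := bump P c r R m z
      have hs : Real.sqrt w * Real.sqrt w = w := Real.mul_self_sqrt hw.le
      have hs0 : 0 < Real.sqrt w := Real.sqrt_pos.2 hw
      have h1 : 0 ≤ (Real.sqrt w * φt z + b / Real.sqrt w) ^ 2 := sq_nonneg _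
      have h2 : (Real.sqrt w * φt z + b / Real.sqrt w) ^ 2 = w * φt z ^ 2 + 2 * φt z * b +
          1 / w * b ^ 2 := by
        have e2 : (Real.sqrt w * φt z + b / Real.sqrt w) ^ 2 =
          (Real.sqrt w * Real.sqrt w) * φt z ^ 2 + 2 * φt z * b +
          1 / (Real.sqrt w * Real.sqrt w) * b ^ 2 := by
            field_simp
            ring
        rw [e2, hs]
      rw [h2] at h1
      rw [e]
      nlinarith
    calc N ≤ ∫ z, ((1 + w) * φt z ^ 2 + (1 + 1 / w) * (bump P c r R m z) ^ 2) :=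
          integral_mono hφI ((hintN.const_mul _).add (hbI.const_mul _)) hpt
      _ = (1 + w) * Nt + (1 + 1 / w) * ∫ z, (bump P c r R m z) ^ 2 := by
          rw [integral_add (hintN.const_mul _) (hbI.const_mul _), integral_const_mul,
            integral_const_mul]
      _ ≤ (1 + w) * Nt + (1 + 1 / w) * (3 * w ^ 2 * Nt) := by gcongr
      _ = (1 + w + 3 * w ^ 2 + 3 * w) * Nt := by field_simp; ring
      _ ≤ (1 + 7 * w) * Nt := by
          have : 1 + w + 3 * w ^ 2 + 3 * w ≤ 1 + 7 * w := by nlinarith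
          exact mul_le_mul_of_nonneg_right this hNt0
  -- conclusion
  have s6 : Λ * Nt ≤ At + Vt := hΛ φt hφtL hφtc hφtU
  have s7 : (1 - 22 * w ^ 2) * (At + Vt) ≤ A := by
    have h1 : At + (1 - 3 * w ^ 2) * M ≤ A := by rw [s1]; linarith
    have hu : w ^ 2 ≤ 1 / 100 := by nlinarith
    have hu0 : 0 ≤ w ^ 2 := sq_nonneg w
    set u := w ^ 2
    have h2 : (1 + u) * A ≥ (1 + u) * At + (1 - 3 * u) * (Vt - 22 * u * At) := by
      have h3 : (1 - 3 * u) * (Vt - 22 * u * At) ≤ (1 - 3 * u) * ((1 + u) * M) := by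
        apply mul_le_mul_of_nonneg_left _ (by linarith)
        linarith
      nlinarith
    have h4 : (1 + u) * ((1 - 22 * u) * (At + Vt)) ≤ (1 + u) * A := by
      nlinarith [mul_nonneg hu0 hAt0, mul_nonneg hu0 hVt0, mul_nonneg (mul_nonneg hu0 hu0) hAt0,
        mul_nonneg (mul_nonneg hu0 hu0) hVt0]
    exact le_of_mul_le_mul_left h4 (by linarith)
  have s8 : (1 - 29 * w) * (1 + 7 * w) ≤ 1 - 22 * w ^ 2 := by nlinarith
  have hΛN : 0 ≤ Λ * Nt := mul_nonneg hΛ0 hNt0
  have h29 : 0 ≤ 1 - 29 * w := by linarith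
  calc (1 - 29 * w) * (Λ * N) ≤ (1 - 29 * w) * (Λ * ((1 + 7 * w) * Nt)) := by gcongr
    _ = (1 - 29 * w) * (1 + 7 * w) * (Λ * Nt) := by ring
    _ ≤ (1 - 22 * w ^ 2) * (Λ * Nt) := by gcongr
    _ ≤ (1 - 22 * w ^ 2) * (At + Vt) := by
        have : 0 ≤ 1 - 22 * w ^ 2 := by nlinarith
        gcongr
    _ ≤ A := s7

end

end Pool.Agent.H95.Perf
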