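import Pool.Agent.H95.Perf.OneScale

/-!
# The perforation at one scale, lower bound for the torsion
-/

open MeasureTheory Set Metric Filter Topology
open scoped RealInnerProductSpace Gradient

namespace Pool.Agent.H95.Perf

open Pool.Agent.H41.Ev (cellOf osq)

variable {ε : ℝ} {P : Finset (ℤ × ℤ)} {κ : ℤ × ℤ → ℝ} {w : ℝ}

/-- doubled inner radii -/
noncomputable def rr2 (ε : ℝ) (κ : ℤ × ℤ → ℝ) (a : ℤ × ℤ) : ℝ := 2 * rad ε (κ a)

/-- comparison of the integral over the disc and over the cell -/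
theorem disc_le_cell (hε : 0 < ε) (a : ℤ × ℤ) {g : ℂ → ℝ} (hg : Continuous g) {D : ℝ}
    (hD : ∀ x y, g x - g y ≤ D * dist x y) (hD0 : 0 ≤ D) :
    ε ^ 2 * ∫ x in ball (ctr ε a) (ε / 4), g x ≤
      Real.pi * (ε / 4) ^ 2 * ((∫ x in cell ε a, g x) + 2 * D * ε ^ 3) := by
  have h1 : ∀ x ∈ ball (ctr ε a) (ε / 4), ε ^ 2 * g x ≤ (∫ y in cell ε a, g y) + 2 * D * ε ^ 3 := by
    intro x hx
    have hxc := ball_subset_cell hε a hx
    have i1 : IntegrableOn (fun y => g y + 2 * D * ε) (cell ε a) :=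
      integrableOn_cell (hg.add continuous_const) ε a
    have i2 : IntegrableOn (fun _ : ℂ => g x) (cell ε a) :=
      integrableOn_cell continuous_const ε a
    have h2 : ∫ y in cell ε a, g x ≤ ∫ y in cell ε a, (g y + 2 * D * ε) := by
      refine setIntegral_mono_on i2 i1 (measurableSet_cell ε a) fun y hy => ?_
      have := hD x y
      have h3 : D * dist x y ≤ D * (2 * ε) := by
        gcongr
        exact dist_le_of_mem_cell hxc hy
      linarith
    rw [setIntegral_const, smul_eq_mul, volume_real_cell hε,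
      integral_add (integrableOn_cell hg ε a) (integrableOn_cell continuous_const ε a),
      setIntegral_const, smul_eq_mul, volume_real_cell hε] at h2
    calc ε ^ 2 * g x ≤ (∫ y in cell ε a, g y) + ε ^ 2 * (2 * D * ε) := h2
      _ = _ := by ring
  have i1 : IntegrableOn (fun x => ε ^ 2 * g x) (ball (ctr ε a) (ε / 4)) :=
    integrableOn_ball (continuous_const.mul hg) _ _
  have i2 : IntegrableOn (fun _ : ℂ => (∫ y in cell ε a, g y) + 2 * D * ε ^ 3)
    (ball (ctr ε a) (ε / 4)) := integrableOn_ball continuous_const _ _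
  have h2 := setIntegral_mono_on i1 i2 measurableSet_ball h1
  rw [integral_const_mul, setIntegral_const, smul_eq_mul, volume_real_ball _ (by positivity)] at h2
  exact h2

/-- Part (b) at one scale. -/
theorem one_scale_b (hε : 0 < ε) (hκpos : ∀ a ∈ P, 0 < κ a) (hκ0 : ∀ a, a ∉ P → κ a = 0)
    (hw : 0 < w) (hw1 : w ≤ 1) (hκw : ∀ a ∈ P, κ a * ε ^ 2 ≤ w ^ 4)
    {φ : ℂ → ℝ} (hφ : IsLip φ) (hφc : HasCompactSupport φ) {A D : ℝ}
    (hA : ∀ x, |φ x| ≤ A) (hD : ∀ x y, φ x ^ 2 - φ y ^ 2 ≤ D * dist x y) (hD0 : 0 ≤ D) :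
    ∃ ψ : ℂ → ℝ, IsLip ψ ∧ HasCompactSupport ψ ∧ tsupport ψ ⊆ tsupport φ ∧
      (∀ a ∈ P, ∀ x ∈ tsupport ψ, x ∉ closedBall (ctr ε a) (rad ε (κ a))) ∧
      2 * (∫ z, φ z) - (∫ z, ‖fderiv ℝ φ z‖ ^ 2) - (∫ z, κ (cellOf ε z) * φ z ^ 2)
        - (6 * A * w ^ 2 * (∑ a ∈ P, ε ^ 2) + w ^ 4 * (∫ z, κ (cellOf ε z) * φ z ^ 2)
          + 4 * D * ε * ∑ a ∈ P, κ a * ε ^ 2) ≤
      2 * (∫ z, ψ z) - ∫ z, ‖fderiv ℝ ψ z‖ ^ 2 := by
  classical
  have hw4 : w ^ 4 ≤ 1 := pow_le_one₀ hw.le hw1
  set R := ε / 4 with hRdef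
  have hR : 0 < R := by positivity
  set c := ctr ε with hcdef
  set r := rr2 ε κ with hrdef
  have hr : ∀ a ∈ P, 0 < r a := fun a _ => by
    have := rad_pos hε (κ a)
    change 0 < 2 * rad ε (κ a)
    positivity
  have hrR : ∀ a ∈ P, r a < R := fun a ha =>
    two_rad_lt hε (hκpos a ha) ((hκw a ha).trans hw4)
  have hdisj : ∀ a ∈ P, ∀ b ∈ P, a ≠ b → 2 * R < dist (c a) (c b) :=
    fun a _ b _ hab => dist_ctr hε hab
  set W := Real.pi * R ^ 2 with hWdef
  have hW : 0 < W := by positivity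
  have hτ : ∀ a ∈ P, ∫ x in ball (c a) R, (1 - zz (c a) (r a) R x) ≤ 3 * w ^ 2 * W :=
    fun a ha => mean_one_sub_le' hε (hκpos a ha) hw hw1 (hκw a ha) (c a)
  have hA0 : 0 ≤ A := (abs_nonneg _).trans (hA 0)
  set ζ := cut P c r R with hζdef
  have hζL : IsLip ζ := isLip_cut hr hrR
  set ψ : ℂ → ℝ := fun z => ζ z * φ z with hψdef
  have hψL : IsLip ψ := hζL.mul_bdd hφ (abs_cut_le hr hrR hdisj) hA
  have hψc : HasCompactSupport ψ := hφc.mul_left
  refine ⟨ψ, hψL, hψc, tsupport_mul_subset_right, ?_, ?_⟩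
  · intro a ha x hx hxb
    have hcl : tsupport ψ ⊆ {x | r a ≤ ‖x - c a‖} := by
      refine closure_minimal ?_ (isClosed_le continuous_const (by fun_prop))
      intro y hy
      by_contra h
      simp only [mem_ofPred_eq, not_le] at h
      apply hy
      simp only [hψdef]
      rw [hζdef, cut_of_near hr hrR hdisj ha (h.le.trans (hrR a ha).le),
        zz_eq_zero _ (hr a ha) h.le, zero_mul]
    have h1 := hcl hx
    simp only [mem_ofPred_eq] at h1
    rw [mem_closedBall, dist_eq_norm] at hxb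
    have h2 : r a = 2 * rad ε (κ a) := rfl
    have h3 := rad_pos hε (κ a)
    linarith
  · -- energy
    have e1 : ∫ z, ‖fderiv ℝ ψ z‖ ^ 2 = (∫ z, (ζ z) ^ 2 * ‖fderiv ℝ φ z‖ ^ 2) +
        ∑ a ∈ P, 4 * bb (r a) R * ∫ x in ball (c a) R, ζ x * φ x ^ 2 :=
      energy_cut_mul hr hrR hdisj hφ hφc
    have hintD : Integrable (fun z => ‖fderiv ℝ φ z‖ ^ 2) :=
      (integrable_ip hφ hφ hφc).congr (Eventually.of_forall fun x => ip_self φ x)
    have e2 : ∫ z, (ζ z) ^ 2 * ‖fderiv ℝ φ z‖ ^ 2 ≤ ∫ z, ‖fderiv ℝ φ z‖ ^ 2 := by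
      refine integral_mono_of_nonneg (Eventually.of_forall fun z => by positivity) hintD
        (Eventually.of_forall fun z => ?_)
      have h1 := cut_mem (c := c) hr hrR hdisj z
      have h2 : (ζ z) ^ 2 ≤ 1 := pow_le_one₀ h1.1 h1.2
      have h3 : 0 ≤ ‖fderiv ℝ φ z‖ ^ 2 := sq_nonneg _
      simp only
      nlinarith
    have hV : ∫ z, κ (cellOf ε z) * φ z ^ 2 = ∑ a ∈ P, κ a * ∫ z in cell ε a, φ z ^ 2 :=
      integral_step hε P hκ0 (f := fun z => φ z ^ 2)
        (fun a _ => integrableOn_cell (hφ.continuous.pow 2) ε a)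
    have e3 : ∑ a ∈ P, 4 * bb (r a) R * ∫ x in ball (c a) R, ζ x * φ x ^ 2 ≤
        (∫ z, κ (cellOf ε z) * φ z ^ 2) + w ^ 4 * (∫ z, κ (cellOf ε z) * φ z ^ 2)
          + 4 * D * ε * ∑ a ∈ P, κ a * ε ^ 2 := by
      rw [hV, Finset.mul_sum, Finset.mul_sum, ← Finset.sum_add_distrib, ← Finset.sum_add_distrib]
      refine Finset.sum_le_sum fun a ha => ?_
      have hκa := hκpos a ha
      have hb := bb_pos (hr a ha) (hrR a ha)
      have hx4 := hκw a ha
      have h1 : ∫ x in ball (c a) R, ζ x * φ x ^ 2 ≤ ∫ x in ball (c a) R, φ x ^ 2 := by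
        refine setIntegral_mono (integrableOn_ball (hζL.continuous.mul (hφ.continuous.pow 2)) _ _)
          (integrableOn_ball (hφ.continuous.pow 2) _ _) fun z => ?_
        have h1 := cut_mem (c := c) hr hrR hdisj z
        have h3 : 0 ≤ φ z ^ 2 := sq_nonneg _
        simp only
        nlinarith [h1.2]
      have h2 := disc_le_cell hε a (hφ.continuous.pow 2) hD hD0
      have h3 : 2 * Real.pi * aa (r a) R ≤ κ a * ε ^ 2 * (1 + κ a * ε ^ 2) :=
        (aa_two_rad hε hκa (hx4.trans hw4)).2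
      have h4 : 4 * bb (r a) R * W = 2 * Real.pi * aa (r a) R := by rw [aa, hWdef]; ring
      set X := ∫ z in cell ε a, φ z ^ 2 with hX
      have hX0 : 0 ≤ X := integral_nonneg fun z => sq_nonneg _
      have hε2 : 0 < ε ^ 2 := by positivity
      have h5 : ∫ x in ball (c a) R, φ x ^ 2 ≤ W * (X + 2 * D * ε ^ 3) / ε ^ 2 := by
        rw [le_div_iff₀ hε2]
        calc (∫ x in ball (c a) R, φ x ^ 2) * ε ^ 2 = ε ^ 2 * ∫ x in ball (c a) R, φ x ^ 2 := by
              ring
          _ ≤ _ := h2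
      calc 4 * bb (r a) R * ∫ x in ball (c a) R, ζ x * φ x ^ 2
          ≤ 4 * bb (r a) R * (W * (X + 2 * D * ε ^ 3) / ε ^ 2) := by
            gcongr
            exact h1.trans h5
        _ = (4 * bb (r a) R * W) * ((X + 2 * D * ε ^ 3) / ε ^ 2) := by ring
        _ ≤ (κ a * ε ^ 2 * (1 + κ a * ε ^ 2)) * ((X + 2 * D * ε ^ 3) / ε ^ 2) := by
            rw [h4]; gcongr
        _ = κ a * (1 + κ a * ε ^ 2) * (X + 2 * D * ε ^ 3) := by field_simp
        _ ≤ κ a * (1 + w ^ 4) * (X + 2 * D * ε ^ 3) := by gcongr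
        _ = κ a * X + w ^ 4 * (κ a * X) + (2 * D * ε * (κ a * ε ^ 2)) * (1 + w ^ 4) := by ring
        _ ≤ κ a * X + w ^ 4 * (κ a * X) + (2 * D * ε * (κ a * ε ^ 2)) * 2 := by
            gcongr
            linarith
        _ = κ a * X + w ^ 4 * (κ a * X) + 4 * D * ε * (κ a * ε ^ 2) := by ring
    -- mass
    have e4 : (∫ z, φ z) - A * (3 * w ^ 2 * ∑ a ∈ P, ε ^ 2) ≤ ∫ z, ψ z := by
      have hφI : Integrable φ := hφ.continuous.integrable_of_hasCompactSupport hφc
      have hψI : Integrable ψ := hψL.continuous.integrable_of_hasCompactSupport hψc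
      have hbL : IsLip (bump P c r R (fun _ => 1)) := isLip_bump hr hrR _
      have hbI : Integrable (bump P c r R (fun _ => 1)) :=
        hbL.continuous.integrable_of_hasCompactSupport (hasCompactSupport_bump hr hrR _)
      have h1 : ∫ z, (φ z - ψ z) ≤ ∫ z, A * bump P c r R (fun _ => 1) z := by
        refine integral_mono (hφI.sub hψI) (hbI.const_mul A) fun z => ?_
        have e : φ z - ψ z = φ z * bump P c r R (fun _ => 1) z := by
          have : ψ z = (1 - bump P c r R (fun _ => 1) z) * φ z := rfl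
          rw [this]; ring
        have h2 := cut_mem (c := c) hr hrR hdisj z
        have h3 : 0 ≤ bump P c r R (fun _ => 1) z := by
          have : ζ z = 1 - bump P c r R (fun _ => 1) z := rfl
          have h4 : ζ z ≤ 1 := h2.2
          linarith
        simp only
        rw [e]
        exact mul_le_mul_of_nonneg_right ((le_abs_self _).trans (hA z)) h3
      rw [integral_sub hφI hψI, integral_const_mul] at h1
      have h2 : ∫ z, bump P c r R (fun _ => 1) z ≤ 3 * w ^ 2 * ∑ a ∈ P, ε ^ 2 := by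
        have i1 : ∀ a ∈ P, Integrable (fun z => (1 : ℝ) * (1 - zz (c a) (r a) R z)) := by
          intro a ha
          have hL : IsLip (fun z => (1 : ℝ) * (1 - zz (c a) (r a) R z)) :=
            ((IsLip.const 1).sub (isLip_zz (c a) (hr a ha) (hrR a ha))).const_mul 1
          refine hL.continuous.integrable_of_hasCompactSupport ?_
          refine HasCompactSupport.intro (K := closedBall (c a) R) (isCompact_closedBall _ _)
            fun x hx => ?_
          rw [mem_closedBall, dist_eq_norm, not_le] at hx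
          rw [zz_eq_one _ (hr a ha) (hrR a ha) hx.le]; ring
        have e : ∫ z, bump P c r R (fun _ => 1) z =
            ∑ a ∈ P, ∫ z, (1 : ℝ) * (1 - zz (c a) (r a) R z) := integral_finsetSum P i1
        rw [e, Finset.mul_sum]
        refine Finset.sum_le_sum fun a ha => ?_
        have h3 : ∫ z, (1 : ℝ) * (1 - zz (c a) (r a) R z) =
            ∫ z in ball (c a) R, (1 - zz (c a) (r a) R z) := by
          rw [← integral_indicator measurableSet_ball]
          refine integral_congr_ae (Eventually.of_forall fun z => ?_)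
          simp only [one_mul]
          by_cases hz : z ∈ ball (c a) R
          · rw [indicator_of_mem hz]
          · rw [indicator_of_notMem hz]
            rw [mem_ball, dist_eq_norm, not_lt] at hz
            rw [zz_eq_one _ (hr a ha) (hrR a ha) hz]; ring
        rw [h3]
        refine (hτ a ha).trans ?_
        have : W ≤ ε ^ 2 := by
          rw [hWdef, hRdef]
          have := Real.pi_lt_four
          nlinarith [sq_nonneg ε]
        gcongr
      have h3 : A * ∫ z, bump P c r R (fun _ => 1) z ≤ A * (3 * w ^ 2 * ∑ a ∈ P, ε ^ 2) := by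
        gcongr
      linarith
    rw [e1]
    linarith

end Pool.Agent.H95.Perf
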